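import Mathlib

/-!
# Interface for the determinantal quartic surfaces (helper47, MP_f9f755_nt / MP_ed3816_nt)

Two self-contained pieces.
-/

set_option autoImplicit false

namespace Pool.Agent.K1H47.CO

open MvPolynomial Height

universe u

/-- **S_DIM.**  `F`, `G` forms in four variables over a field, `F` irreducible, `F ∤ G`.  There is `d`
such that for all forms `A`, `B` of the same degree `δ` (arbitrary) and all coordinates `i`, `j` there is a
nontrivial relation `∑_{l ≤ d, m ≤ M} c l m A^l B^(d-l) X_i^m X_j^(M-m) ∈ (F, G)`, with `M` depending on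
everything, but `d` depending on `F` and `G` only. -/
def S_DIM : Prop := ∀ (K : Type u) [Field K] (F G : MvPolynomial (Fin 4) K) (D g : ℕ),
  F.IsHomogeneous D → G.IsHomogeneous g → Irreducible F → ¬ F ∣ G →
  ∃ d : ℕ, ∀ (δ : ℕ) (A B : MvPolynomial (Fin 4) K), A.IsHomogeneous δ → B.IsHomogeneous δ →
    ∀ i j : Fin 4, ∃ (M : ℕ) (c : Fin (d + 1) → Fin (M + 1) → K), c ≠ 0 ∧
      ∑ l : Fin (d + 1), ∑ m : Fin (M + 1),
        C (c l m) * (A ^ (l : ℕ) * B ^ (d - l) * (X i ^ (m : ℕ) * X j ^ (M - m))) ∈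
          Ideal.span {F, G}

/-- **S_ROOT.**  Heights of the roots of a polynomial relation. -/
def S_ROOT : Prop := ∀ (K : Type u) [Field K] [AdmissibleAbsValues K] (d M : ℕ)
  (c : Fin (d + 1) → Fin (M + 1) → K), c ≠ 0 →
  ∃ (C₀ : ℝ) (S : Finset K), ∀ a b : K,
    ∑ l : Fin (d + 1), ∑ m : Fin (M + 1), c l m * (a ^ (l : ℕ) * b ^ (m : ℕ)) = 0 → a ∉ S →
      logHeight₁ b ≤ d * logHeight₁ a + C₀

end Pool.Agent.K1H47.CO
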