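import Mathlib

/-! # The chain of points attached to a `4 × 4 × 4` tensor (helper47) -/

set_option autoImplicit false

namespace Pool.Agent.K1H47.CO

open Matrix

section ring

variable {R : Type*} [CommRing R]

/-- the matrix `T(u, ·, ·)` -/
def mt (T : Fin 4 → Fin 4 → Fin 4 → R) (u : Fin 4 → R) : Matrix (Fin 4) (Fin 4) R :=
  Matrix.of fun b c => ∑ a, T a b c * u a

/-- cyclic rotation of the slots -/
def rot {A : Type*} (T : Fin 4 → Fin 4 → Fin 4 → A) : Fin 4 → Fin 4 → Fin 4 → A :=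
  fun b c a => T a b c

/-- `T(u, v, ·) = 0` -/
def Rel (T : Fin 4 → Fin 4 → Fin 4 → R) (u v : Fin 4 → R) : Prop := v ᵥ* mt T u = 0

lemma mt_apply (T : Fin 4 → Fin 4 → Fin 4 → R) (u : Fin 4 → R) (b c : Fin 4) :
    mt T u b c = ∑ a, T a b c * u a := rfl

lemma rel_iff (T : Fin 4 → Fin 4 → Fin 4 → R) (u v : Fin 4 → R) :
    Rel T u v ↔ mt (rot T) v *ᵥ u = 0 := by
  have h : v ᵥ* mt T u = mt (rot T) v *ᵥ u := by
    ext c
    simp only [Matrix.vecMul, Matrix.mulVec, dotProduct, mt_apply, rot, Finset.mul_sum,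
      Finset.sum_mul]
    rw [Finset.sum_comm]
    refine Finset.sum_congr rfl fun a _ => Finset.sum_congr rfl fun b _ => ?_
    ring
  rw [Rel, h]

lemma mt_smul (T : Fin 4 → Fin 4 → Fin 4 → R) (t : R) (u : Fin 4 → R) :
    mt T (t • u) = t • mt T u := by
  ext b c
  simp only [mt_apply, Matrix.smul_apply, Pi.smul_apply, smul_eq_mul, Finset.mul_sum]
  exact Finset.sum_congr rfl fun a _ => by ring

lemma rot_rot_rot {A : Type*} (T : Fin 4 → Fin 4 → Fin 4 → A) : rot (rot (rot T)) = T := rfl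

lemma rot_iterate_add {A : Type*} (T : Fin 4 → Fin 4 → Fin 4 → A) (i m : ℕ) :
    rot^[i + 3 * m] T = rot^[i] T := by
  induction m with
  | zero => rfl
  | succ m ih =>
    rw [show i + 3 * (m + 1) = (i + 3 * m) + 1 + 1 + 1 by ring, Function.iterate_succ_apply',
      Function.iterate_succ_apply', Function.iterate_succ_apply', ih]
    rfl

/-- the tensor over an extension -/
def tmap {S : Type*} [CommRing S] (φ : R →+* S) (T : Fin 4 → Fin 4 → Fin 4 → R) :
    Fin 4 → Fin 4 → Fin 4 → S := fun a b c => φ (T a b c)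

lemma mt_tmap {S : Type*} [CommRing S] (φ : R →+* S) (T : Fin 4 → Fin 4 → Fin 4 → R)
    (u : Fin 4 → R) : mt (tmap φ T) (fun a => φ (u a)) = (mt T u).map φ := by
  ext b c
  simp [mt_apply, tmap, Matrix.map_apply, map_sum, map_mul]

lemma rot_tmap {S : Type*} [CommRing S] (φ : R →+* S) (T : Fin 4 → Fin 4 → Fin 4 → R) :
    rot (tmap φ T) = tmap φ (rot T) := rfl

lemma rot_iterate_tmap {S : Type*} [CommRing S] (φ : R →+* S) (T : Fin 4 → Fin 4 → Fin 4 → R)
    (i : ℕ) : rot^[i] (tmap φ T) = tmap φ (rot^[i] T) := by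
  induction i with
  | zero => rfl
  | succ i ih => rw [Function.iterate_succ_apply', Function.iterate_succ_apply', ih]; rfl

lemma adj_row (N : Matrix (Fin 4) (Fin 4) R) (h : N.det = 0) (b : Fin 4) :
    (N.adjugate b) ᵥ* N = 0 := by
  have h1 := Matrix.adjugate_mul N
  rw [h, zero_smul] at h1
  have h2 := congrFun h1 b
  ext c
  have h3 := congrFun h2 c
  simpa [Matrix.mul_apply, Matrix.vecMul, dotProduct] using h3

lemma adj_col (N : Matrix (Fin 4) (Fin 4) R) (h : N.det = 0) (c : Fin 4) :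
    N *ᵥ (fun b => N.adjugate b c) = 0 := by
  have h1 := Matrix.mul_adjugate N
  rw [h, zero_smul] at h1
  ext b
  have h3 := congrFun (congrFun h1 b) c
  simpa [Matrix.mul_apply, Matrix.mulVec, dotProduct] using h3

end ring

section field

variable {k : Type*} [Field k]

/-- a matrix with nonzero adjugate has a left kernel of dimension at most one -/
lemma left_unique {N : Matrix (Fin 4) (Fin 4) k} (hN : N.adjugate ≠ 0) {v v' : Fin 4 → k}
    (hv : v ≠ 0) (h : v ᵥ* N = 0) (h' : v' ᵥ* N = 0) : ∃ t : k, v' = t • v := by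
  obtain ⟨b, c, hbc⟩ : ∃ b c, N.adjugate b c ≠ 0 := by
    by_contra h0
    push Not at h0
    exact hN (Matrix.ext h0)
  rw [Matrix.adjugate_apply] at hbc
  have key : ∀ w : Fin 4 → k, w ᵥ* N = 0 → w c = 0 → w = 0 := by
    intro w hw hwc
    refine Matrix.eq_zero_of_vecMul_eq_zero hbc ?_
    rw [← hw]
    ext j
    simp only [Matrix.vecMul, dotProduct]
    refine Finset.sum_congr rfl fun i _ => ?_
    by_cases hi : i = c
    · subst hi; rw [hwc]; ring
    · rw [Matrix.updateRow_ne hi]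
  have hvc : v c ≠ 0 := fun h0 => hv (key v h h0)
  refine ⟨v' c / v c, ?_⟩
  have h1 := key (v' - (v' c / v c) • v) (by
    rw [Matrix.sub_vecMul, Matrix.smul_vecMul, h, h']; simp) (by
    simp [hvc])
  exact sub_eq_zero.1 h1

lemma right_unique {N : Matrix (Fin 4) (Fin 4) k} (hN : N.adjugate ≠ 0) {v v' : Fin 4 → k}
    (hv : v ≠ 0) (h : N *ᵥ v = 0) (h' : N *ᵥ v' = 0) : ∃ t : k, v' = t • v := by
  refine left_unique (N := N.transpose) ?_ hv (by rw [Matrix.vecMul_transpose]; exact h)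
    (by rw [Matrix.vecMul_transpose]; exact h')
  intro h0
  apply hN
  rw [← Matrix.adjugate_transpose] at h0
  exact Matrix.transpose_eq_zero.1 h0

/-- the adjugate has rank one -/
lemma adj_rank_one {N : Matrix (Fin 4) (Fin 4) k} (hN : N.adjugate ≠ 0) {v w : Fin 4 → k}
    (hv : v ≠ 0) (hw : w ≠ 0) (h : v ᵥ* N = 0) (h' : N *ᵥ w = 0) :
    ∃ t : k, t ≠ 0 ∧ ∀ b c, N.adjugate b c = t * (w b * v c) := by
  have hdet : N.det = 0 := Matrix.exists_vecMul_eq_zero_iff.1 ⟨v, hv, h⟩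
  choose r hr using fun b => left_unique hN hv h (adj_row N hdet b)
  choose s hs using fun c => right_unique hN hw h' (adj_col N hdet c)
  obtain ⟨c₀, hc₀⟩ : ∃ c, v c ≠ 0 := by
    by_contra h0
    push Not at h0
    exact hv (funext h0)
  have e1 : ∀ b c, N.adjugate b c = r b * v c := fun b c => by
    have := congrFun (hr b) c
    simpa using this
  have e2 : ∀ b c, N.adjugate b c = s c * w b := fun b c => by
    have := congrFun (hs c) b
    simpa using this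
  have e3 : ∀ b, r b = s c₀ / v c₀ * w b := fun b => by
    have := (e1 b c₀).symm.trans (e2 b c₀)
    field_simp
    linear_combination this
  refine ⟨s c₀ / v c₀, ?_, fun b c => by rw [e1, e3]; ring⟩
  intro h0
  apply hN
  ext b c
  rw [e1, e3, h0]
  simp

end field

section chain

variable {k : Type*} [Field k]

/-- a chain of points: `T(u₀, u₁, ·) = 0`, `T(·, u₁, u₂) = 0`, `T(u₃, ·, u₂) = 0`, … -/
structure Chain (T : Fin 4 → Fin 4 → Fin 4 → k) (u : ℕ → Fin 4 → k) : Prop where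
  ne : ∀ i, u i ≠ 0
  rel : ∀ i, Rel (rot^[i] T) (u i) (u (i + 1))

/-- all the matrices `T(u, ·, ·)`, `T(·, u, ·)`, `T(·, ·, u)` have rank at least three -/
def ND (T : Fin 4 → Fin 4 → Fin 4 → k) : Prop :=
  ∀ i, ∀ u : Fin 4 → k, u ≠ 0 → (mt (rot^[i] T) u).adjugate ≠ 0

lemma Rel.det_eq {S : Fin 4 → Fin 4 → Fin 4 → k} {u v : Fin 4 → k} (hv : v ≠ 0)
    (h : Rel S u v) : (mt S u).det = 0 := Matrix.exists_vecMul_eq_zero_iff.1 ⟨v, hv, h⟩

lemma Rel.det_rot_eq {S : Fin 4 → Fin 4 → Fin 4 → k} {u v : Fin 4 → k} (hu : u ≠ 0)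
    (h : Rel S u v) : (mt (rot S) v).det = 0 :=
  Matrix.exists_mulVec_eq_zero_iff.1 ⟨u, hu, (rel_iff S u v).1 h⟩

lemma adj_smul_ne {S : Fin 4 → Fin 4 → Fin 4 → k} {u : Fin 4 → k} {t : k}
    (h : (mt S (t • u)).adjugate ≠ 0) : (mt S u).adjugate ≠ 0 := by
  intro h0
  apply h
  rw [mt_smul, Matrix.adjugate_smul, h0, smul_zero]

lemma Rel.fwd {S : Fin 4 → Fin 4 → Fin 4 → k} (hS : ∀ u : Fin 4 → k, u ≠ 0 → (mt S u).adjugate ≠ 0)
    {u v v' : Fin 4 → k} {t : k} (ht : t ≠ 0) (hu : u ≠ 0) (hv : v ≠ 0) (hv' : v' ≠ 0)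
    (h : Rel S u v) (h' : Rel S (t • u) v') : ∃ t' : k, t' ≠ 0 ∧ v' = t' • v := by
  have h1 : v' ᵥ* mt S u = 0 := by
    have h2 : v' ᵥ* mt S (t • u) = 0 := h'
    rw [mt_smul, Matrix.vecMul_smul] at h2
    exact (smul_eq_zero.1 h2).resolve_left ht
  obtain ⟨t', ht'⟩ := left_unique (hS u hu) hv h h1
  refine ⟨t', ?_, ht'⟩
  rintro rfl
  rw [zero_smul] at ht'
  exact hv' ht'

lemma Rel.bwd {S : Fin 4 → Fin 4 → Fin 4 → k}
    (hS : ∀ u : Fin 4 → k, u ≠ 0 → (mt (rot S) u).adjugate ≠ 0)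
    {u u' v : Fin 4 → k} {t : k} (ht : t ≠ 0) (hv : v ≠ 0) (hu : u ≠ 0) (hu' : u' ≠ 0)
    (h : Rel S u v) (h' : Rel S u' (t • v)) : ∃ t' : k, t' ≠ 0 ∧ u' = t' • u := by
  rw [rel_iff] at h h'
  have h1 : mt (rot S) v *ᵥ u' = 0 := by
    rw [mt_smul, Matrix.smul_mulVec] at h'
    exact (smul_eq_zero.1 h').resolve_left ht
  obtain ⟨t', ht'⟩ := right_unique (hS v hv) hu h h1
  refine ⟨t', ?_, ht'⟩
  rintro rfl
  rw [zero_smul] at ht'
  exact hu' ht'

open Classical in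
/-- a next point -/
noncomputable def nx (S : Fin 4 → Fin 4 → Fin 4 → k) (u : Fin 4 → k) : Fin 4 → k :=
  if h : ∃ v, v ≠ 0 ∧ Rel S u v then h.choose else 0

lemma nx_spec {S : Fin 4 → Fin 4 → Fin 4 → k} {u : Fin 4 → k} (h : (mt S u).det = 0) :
    nx S u ≠ 0 ∧ Rel S u (nx S u) := by
  have h1 : ∃ v, v ≠ 0 ∧ Rel S u v := by
    obtain ⟨v, hv, h2⟩ := Matrix.exists_vecMul_eq_zero_iff.2 h
    exact ⟨v, hv, h2⟩
  unfold nx
  rw [dif_pos h1]
  exact h1.choose_spec

/-- the sequence of points starting at `P` -/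
noncomputable def seqU (T : Fin 4 → Fin 4 → Fin 4 → k) (P : Fin 4 → k) : ℕ → Fin 4 → k
  | 0 => P
  | i + 1 => nx (rot^[i] T) (seqU T P i)

lemma seqU_chain {T : Fin 4 → Fin 4 → Fin 4 → k} {P : Fin 4 → k} (hP : P ≠ 0)
    (h : (mt T P).det = 0) : Chain T (seqU T P) := by
  have key : ∀ i, seqU T P i ≠ 0 ∧ (mt (rot^[i] T) (seqU T P i)).det = 0 := by
    intro i
    induction i with
    | zero => exact ⟨hP, h⟩
    | succ i ih =>
      have h1 := nx_spec ih.2
      refine ⟨h1.1, ?_⟩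
      rw [Function.iterate_succ_apply']
      exact h1.2.det_rot_eq ih.1
  exact ⟨fun i => (key i).1, fun i => (nx_spec (key i).2).2⟩

lemma Chain.shift {T : Fin 4 → Fin 4 → Fin 4 → k} {u : ℕ → Fin 4 → k} (h : Chain T u) (m : ℕ) :
    Chain T (fun i => u (i + 3 * m)) where
  ne i := h.ne _
  rel i := by
    have h1 := h.rel (i + 3 * m)
    rw [rot_iterate_add] at h1
    rw [show i + 1 + 3 * m = i + 3 * m + 1 by ring]
    exact h1

lemma Chain.det {T : Fin 4 → Fin 4 → Fin 4 → k} {u : ℕ → Fin 4 → k} (h : Chain T u) (i : ℕ) :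
    (mt (rot^[i] T) (u i)).det = 0 := (h.rel i).det_eq (h.ne _)

/-- proportional starting points give proportional chains -/
lemma Chain.prop {T : Fin 4 → Fin 4 → Fin 4 → k} (hT : ND T) {u u' : ℕ → Fin 4 → k}
    (h : Chain T u) (h' : Chain T u') {t : k} (ht : t ≠ 0) (h0 : u' 0 = t • u 0) (i : ℕ) :
    ∃ t' : k, t' ≠ 0 ∧ u' i = t' • u i := by
  induction i with
  | zero => exact ⟨t, ht, h0⟩
  | succ i ih =>
    obtain ⟨s, hs, hs'⟩ := ih
    have h1 := h'.rel i
    rw [hs'] at h1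
    exact Rel.fwd (hT i) hs (h.ne i) (h.ne _) (h'.ne _) (h.rel i) h1

/-- and backwards -/
lemma Chain.prop_bwd {T : Fin 4 → Fin 4 → Fin 4 → k} (hT : ND T) {u u' : ℕ → Fin 4 → k}
    (h : Chain T u) (h' : Chain T u') {i : ℕ} {t : k} (ht : t ≠ 0) (h0 : u' i = t • u i) :
    ∃ t' : k, t' ≠ 0 ∧ u' 0 = t' • u 0 := by
  induction i generalizing t with
  | zero => exact ⟨t, ht, h0⟩
  | succ i ih =>
    have h1 := h'.rel i
    rw [h0] at h1
    obtain ⟨s, hs, hs'⟩ := Rel.bwd (S := rot^[i] T) (by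
      have := hT (i + 1)
      rwa [Function.iterate_succ_apply'] at this) ht (h.ne _) (h.ne i) (h'.ne i) (h.rel i) h1
    exact ih hs hs'

end chain

end Pool.Agent.K1H47.CO
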