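import Pool.Agent.K1H47.CO.Null
import Pool.Agent.K1H24.CO.Dim
import Pool.Agent.K1H48.CO.Root

/-! # Zariski density of the chains (helper47) -/

set_option autoImplicit false
set_option linter.unusedSectionVars false

namespace Pool.Agent.K1H47.CO

open Matrix MvPolynomial Height Filter

universe u

section heights

variable {K : Type u} [Field K]

lemma logHeight₁_ratio_le [AdmissibleAbsValues K] (z : Fin 4 → K) {i j : Fin 4} :
    logHeight₁ (z i / z j) ≤ logHeight z := by
  rw [logHeight₁_div_eq_logHeight]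
  have h := logHeight_comp_le (K := K) (![i, j] : Fin 2 → Fin 4) z
  have e : z ∘ ![i, j] = ![z i, z j] := by
    funext a
    fin_cases a <;> rfl
  rw [e] at h
  exact h

lemma logHeight_le_ratio [AdmissibleAbsValues K] {z : Fin 4 → K} (hz : z ≠ 0) :
    ∃ i j : Fin 4, z j ≠ 0 ∧ logHeight z ≤ 4 * logHeight₁ (z i / z j) := by
  obtain ⟨j, hj⟩ : ∃ j, z j ≠ 0 := by
    by_contra h0
    push Not at h0
    exact hz (funext h0)
  obtain ⟨i, -, hi⟩ := Finset.exists_max_image (Finset.univ : Finset (Fin 4))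
    (fun i => logHeight₁ (z i / z j)) ⟨0, Finset.mem_univ _⟩
  refine ⟨i, j, hj, ?_⟩
  have h1 : logHeight z = logHeight (fun a => z a / z j) := by
    have e : (fun a => z a / z j) = (z j)⁻¹ • z := by
      funext a
      rw [Pi.smul_apply, smul_eq_mul, div_eq_inv_mul]
    rw [e, logHeight_smul_eq_logHeight _ (inv_ne_zero hj)]
  have h2 := logHeight_fun_prod_eq (K := K) (x := fun (a : Fin 4) => (![z a / z j, 1] : Fin 2 → K))
    (fun a h0 => by
      have := congrFun h0 1
      simp at this)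
  have h3 := logHeight_comp_le (K := K)
    (fun (a : Fin 4) => (fun b => if b = a then 0 else 1 : Fin 4 → Fin 2))
    (fun I : (a : Fin 4) → Fin 2 => ∏ a, (![z a / z j, 1] : Fin 2 → K) (I a))
  have e3 : ((fun I : (a : Fin 4) → Fin 2 => ∏ a, (![z a / z j, 1] : Fin 2 → K) (I a)) ∘
      (fun (a : Fin 4) => (fun b => if b = a then 0 else 1 : Fin 4 → Fin 2))) =
      fun a => z a / z j := by
    funext a
    simp only [Function.comp]
    rw [Finset.prod_eq_single a]
    · simp
    · intro b _ hb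
      rw [if_neg hb]; simp
    · intro h; exact absurd (Finset.mem_univ a) h
  rw [e3] at h3
  rw [h1]
  refine h3.trans (h2.le.trans ?_)
  calc ∑ a, logHeight (![z a / z j, 1] : Fin 2 → K) = ∑ a, logHeight₁ (z a / z j) := by
        refine Finset.sum_congr rfl fun a _ => (logHeight₁_eq_logHeight _).symm
    _ ≤ ∑ _a : Fin 4, logHeight₁ (z i / z j) := Finset.sum_le_sum fun a _ => hi a (Finset.mem_univ _)
    _ = 4 * logHeight₁ (z i / z j) := by simp

/-- finitely many points of bounded height -/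
theorem northcott [NumberField K] (B : ℝ) : ∃ E : Finset (Fin 4 → K), ∀ z : Fin 4 → K, z ≠ 0 →
    logHeight z ≤ B → ∃ e ∈ E, ∃ t : K, t ≠ 0 ∧ z = t • e := by
  have hf : {t : K | logHeight₁ t ≤ B}.Finite := NumberField.finite_setOfPred_logHeight₁_le K B
  have hf2 : {z : Fin 4 → K | ∀ i, z i ∈ {t : K | logHeight₁ t ≤ B}}.Finite :=
    Set.Finite.pi' fun _ => hf
  refine ⟨hf2.toFinset, fun z hz hB => ?_⟩
  obtain ⟨j, hj⟩ : ∃ j, z j ≠ 0 := by
    by_contra h0
    push Not at h0
    exact hz (funext h0)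
  refine ⟨fun a => z a / z j, ?_, z j, hj, ?_⟩
  · rw [Set.Finite.mem_toFinset]
    intro i
    exact (logHeight₁_ratio_le z).trans hB
  · funext a
    simp only [Pi.smul_apply, smul_eq_mul]
    field_simp

end heights

section back

variable {K : Type u} [Field K]

lemma det_hom {N : Matrix (Fin 4) (Fin 4) (MvPolynomial (Fin 4) K)} {n : Fin 4 → ℕ}
    (h : ∀ i j, (N i j).IsHomogeneous (n i)) : N.det.IsHomogeneous (∑ i, n i) := by
  rw [Matrix.det_apply]
  refine IsHomogeneous.sum _ _ _ fun σ _ => ?_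
  have h1 : (∏ i, N (σ i) i).IsHomogeneous (∑ i, n (σ i)) :=
    IsHomogeneous.prod _ _ _ fun i _ => h _ _
  rw [Equiv.sum_comp σ] at h1
  rw [Units.smul_def, ← Int.cast_smul_eq_zsmul K]
  exact (homogeneousSubmodule (Fin 4) K _).smul_mem _ h1

lemma adj_hom {N : Matrix (Fin 4) (Fin 4) (MvPolynomial (Fin 4) K)} {D : ℕ}
    (h : ∀ i j, (N i j).IsHomogeneous D) (b c : Fin 4) :
    (N.adjugate b c).IsHomogeneous (3 * D) := by
  rw [Matrix.adjugate_apply]
  have h1 := det_hom (N := N.updateRow c (Pi.single b 1)) (n := fun i => if i = c then 0 else D)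
    (fun i j => by
      by_cases hi : i = c
      · subst hi
        rw [if_pos rfl, Matrix.updateRow_self]
        by_cases hj : j = b
        · subst hj
          rw [Pi.single_eq_same]
          exact isHomogeneous_one _ _
        · rw [Pi.single_eq_of_ne hj]
          exact isHomogeneous_zero _ _ _
      · rw [if_neg hi, Matrix.updateRow_ne hi]
        exact h i j)
  have h2 : ∑ i : Fin 4, (if i = c then 0 else D) = 3 * D := by
    fin_cases c <;> simp [Fin.sum_univ_four] <;> ring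
  rwa [h2] at h1

/-- going back along a chain -/
noncomputable def bk (T : Fin 4 → Fin 4 → Fin 4 → K) : List (Fin 4) → Fin 4 →
    MvPolynomial (Fin 4) K
  | [] => X
  | c :: l => fun b => (mt (tmap (C : K →+* MvPolynomial (Fin 4) K) (rot^[2 * l.length] T))
      (bk T l)).adjugate b c

lemma bk_hom (T : Fin 4 → Fin 4 → Fin 4 → K) (l : List (Fin 4)) (b : Fin 4) :
    (bk T l b).IsHomogeneous (3 ^ l.length) := by
  induction l generalizing b with
  | nil => exact isHomogeneous_X K b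
  | cons c l ih =>
    rw [List.length_cons, pow_succ, mul_comm]
    refine adj_hom (fun i j => ?_) b c
    rw [mt_apply]
    refine IsHomogeneous.sum _ _ _ fun a _ => ?_
    have := (isHomogeneous_C (Fin 4) ((rot^[2 * l.length] T) a i j)).mul (ih a)
    simpa [tmap] using this

lemma eval_bk (T : Fin 4 → Fin 4 → Fin 4 → K) (c : Fin 4) (l : List (Fin 4)) (b : Fin 4)
    (z : Fin 4 → K) : eval z (bk T (c :: l) b) =
      (mt (rot^[2 * l.length] T) (fun a => eval z (bk T l a))).adjugate b c := by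
  have h1 : mt (rot^[2 * l.length] T) (fun a => eval z (bk T l a)) =
      (mt (tmap (C : K →+* MvPolynomial (Fin 4) K) (rot^[2 * l.length] T)) (bk T l)).map
        (eval z) := by
    rw [← mt_tmap (eval z)]
    congr 1
    funext a b c
    simp [tmap]
  rw [h1, ← RingHom.mapMatrix_apply, ← RingHom.map_adjugate]
  rfl

lemma exists_bk {T : Fin 4 → Fin 4 → Fin 4 → K} (hT : ND T) {u : ℕ → Fin 4 → K}
    (hu : Chain T u) (n r : ℕ) (hr : r ≤ 3 * n) :
    ∃ l : List (Fin 4), l.length = r ∧ ∃ t : K, t ≠ 0 ∧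
      ∀ a, eval (u (3 * n)) (bk T l a) = t * u (3 * n - r) a := by
  induction r with
  | zero => exact ⟨[], rfl, 1, one_ne_zero, fun a => by simp [bk]⟩
  | succ r ih =>
    obtain ⟨l, hl, t, ht, h⟩ := ih (by omega)
    obtain ⟨j, hj⟩ : ∃ j, 3 * n - r = j + 1 := ⟨3 * n - r - 1, by omega⟩
    have hS : rot^[2 * r] T = rot^[3 * n - r] T := by
      have e1 : 2 * r + 3 * n = (3 * n - r) + 3 * r := by omega
      rw [← rot_iterate_add T (2 * r) n, e1, rot_iterate_add]
    have hv : (fun a => eval (u (3 * n)) (bk T l a)) = t • u (j + 1) := by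
      funext a
      rw [h a, hj]; rfl
    have hadj : (mt (rot^[j + 1] T) (u (j + 1))).adjugate ≠ 0 := hT _ _ (hu.ne _)
    obtain ⟨s, hs, hs'⟩ := adj_rank_one hadj (hu.ne (j + 2)) (hu.ne j) (hu.rel (j + 1)) (by
      rw [Function.iterate_succ_apply']
      exact (rel_iff _ _ _).1 (hu.rel j))
    obtain ⟨c, hc⟩ : ∃ c, u (j + 2) c ≠ 0 := by
      by_contra h0
      push Not at h0
      exact hu.ne (j + 2) (funext h0)
    refine ⟨c :: l, by simp [hl], t ^ 3 * (s * u (j + 2) c),
      mul_ne_zero (pow_ne_zero _ ht) (mul_ne_zero hs hc), fun a => ?_⟩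
    rw [eval_bk, hl, hv, hS, hj, mt_smul, Matrix.adjugate_smul, Matrix.smul_apply, hs']
    have e2 : 3 * n - (r + 1) = j := by omega
    rw [e2]
    simp only [Fintype.card_fin, smul_eq_mul]
    ring

end back

section growth

variable {K : Type u} [Field K] [NumberField K]

/-- the starting point is not periodic -/
def NonPer (u : ℕ → Fin 4 → K) : Prop := ∀ k, 1 ≤ k → ∀ t : K, t ≠ 0 → u (3 * k) ≠ t • u 0

lemma NonPer.ne {T : Fin 4 → Fin 4 → Fin 4 → K} (hT : ND T) {u : ℕ → Fin 4 → K}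
    (hu : Chain T u) (hn : NonPer u) {i k : ℕ} (hk : 1 ≤ k) {t : K} (ht : t ≠ 0) :
    u (i + 3 * k) ≠ t • u i := by
  intro h
  obtain ⟨t', ht', h'⟩ := Chain.prop_bwd hT hu (hu.shift k) ht h
  refine hn k hk t' ht' ?_
  simpa using h'

/-- the heights tend to infinity -/
lemma tendsto_height {T : Fin 4 → Fin 4 → Fin 4 → K} (hT : ND T) {u : ℕ → Fin 4 → K}
    (hu : Chain T u) (hn : NonPer u) : Tendsto (fun i => logHeight (u i)) atTop atTop := by
  rw [tendsto_atTop]
  intro B
  by_contra hcon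
  rw [not_eventually] at hcon
  obtain ⟨E, hE⟩ := northcott (K := K) B
  have hinf : {i | ¬ B ≤ logHeight (u i)}.Infinite := Nat.frequently_atTop_iff_infinite.1 hcon
  have h1 : ∀ i : {i | ¬ B ≤ logHeight (u i)}, ∃ e : E, ∃ t : K, t ≠ 0 ∧ u i = t • (e : Fin 4 → K) := by
    rintro ⟨i, hi⟩
    obtain ⟨e, he, t, ht, h⟩ := hE (u i) (hu.ne i) (not_le.1 hi).le
    exact ⟨⟨e, he⟩, t, ht, h⟩
  choose e t ht h using h1
  have := hinf.to_subtype
  obtain ⟨x, y, hxy, hf⟩ := Finite.exists_ne_map_eq_of_infinite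
    (fun i : {i | ¬ B ≤ logHeight (u i)} => (e i, (⟨(i : ℕ) % 3, Nat.mod_lt _ (by norm_num)⟩ : Fin 3)))
  simp only [Prod.mk.injEq, Fin.mk.injEq] at hf
  have key : ∀ x y : {i | ¬ B ≤ logHeight (u i)}, (x : ℕ) < y → e x = e y →
      (x : ℕ) % 3 = (y : ℕ) % 3 → False := by
    intro x y hlt he hmod
    obtain ⟨k, hk⟩ : ∃ k, (y : ℕ) = x + 3 * k := ⟨((y : ℕ) - x) / 3, by omega⟩
    refine NonPer.ne hT hu hn (i := x) (k := k) (by omega)
      (t := t y * (t x)⁻¹) (mul_ne_zero (ht y) (inv_ne_zero (ht x))) ?_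
    rw [← hk, h y, h x, he, smul_smul, mul_assoc, inv_mul_cancel₀ (ht x), mul_one]
  rcases lt_trichotomy (x : ℕ) y with hlt | heq | hlt
  · exact key x y hlt hf.1 hf.2
  · exact hxy (Subtype.ext heq)
  · exact key y x hlt hf.1.symm hf.2.symm

/-- exponential growth -/
lemma growth {H : ℕ → ℝ} {C₀ : ℝ} (hC : 0 ≤ C₀)
    (h : ∀ i, 3 * H (i + 1) ≤ H i + H (i + 2) + C₀) (hH : Tendsto H atTop atTop) :
    ∃ i₀, ∀ i, i₀ ≤ i → ∀ r, 2 ^ r * (H i - C₀) ≤ H (i + r) - C₀ := by
  obtain ⟨i₁, hi₁⟩ := (hH.eventually_ge_atTop C₀).exists_forall_of_atTop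
  obtain ⟨i₂, hi₂, h2⟩ : ∃ i, i₁ ≤ i ∧ H i ≤ H (i + 1) := by
    by_contra hcon
    push Not at hcon
    have h3 : ∀ j, H (i₁ + j) ≤ H i₁ := by
      intro j
      induction j with
      | zero => simp
      | succ j ih => exact (hcon (i₁ + j) (by omega)).le.trans ih
    obtain ⟨i, hi⟩ := (hH.eventually_gt_atTop (H i₁)).exists_forall_of_atTop
    have h4 := hi (i₁ + i) (by omega)
    exact absurd (h3 i) (not_le.2 h4)
  have h3 : ∀ j, H (i₂ + j) ≤ H (i₂ + j + 1) := by
    intro j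
    induction j with
    | zero => exact h2
    | succ j ih =>
      have h4 := h (i₂ + j)
      have h5 := hi₁ (i₂ + j + 1) (by omega)
      rw [show i₂ + (j + 1) + 1 = i₂ + j + 2 by ring, show i₂ + (j + 1) = i₂ + j + 1 by ring]
      linarith
  refine ⟨i₂ + 1, fun i hi r => ?_⟩
  induction r with
  | zero => simp
  | succ r ih =>
    obtain ⟨j, hj⟩ : ∃ j, i + r = i₂ + j + 1 := ⟨i + r - i₂ - 1, by omega⟩
    have h4 := h (i₂ + j)
    have h5 := h3 j
    rw [show i + (r + 1) = i₂ + j + 2 by omega]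
    rw [hj] at ih
    rw [pow_succ]
    nlinarith

/-- periodic points have small height -/
lemma per_height {T : Fin 4 → Fin 4 → Fin 4 → K} (hT : ND T) {u : ℕ → Fin 4 → K}
    (hu : Chain T u) {C₀ : ℝ}
    (h : ∀ i, 3 * logHeight (u (i + 1)) ≤ logHeight (u i) + logHeight (u (i + 2)) + C₀)
    (hn : ¬ NonPer u) : logHeight (u 0) ≤ C₀ := by
  unfold NonPer at hn
  push Not at hn
  obtain ⟨k, hk, t, ht, h0⟩ := hn
  have hper : ∀ i, logHeight (u (i + 3 * k)) = logHeight (u i) := by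
    intro i
    obtain ⟨s, hs, hs'⟩ := Chain.prop hT hu (hu.shift k) ht (by simpa using h0) i
    have hs'' : u (i + 3 * k) = s • u i := hs'
    rw [hs'', logHeight_smul_eq_logHeight _ hs]
  obtain ⟨i, hi, hmax⟩ := Finset.exists_max_image (Finset.Icc 1 (3 * k))
    (fun i => logHeight (u i)) ⟨1, Finset.mem_Icc.2 ⟨le_rfl, by omega⟩⟩
  have hall : ∀ j, logHeight (u j) ≤ logHeight (u i) := by
    intro j
    induction j using Nat.strong_induction_on with
    | _ j ih =>
      rcases Nat.eq_zero_or_pos j with rfl | hj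
      · rw [← hper 0]
        exact hmax _ (Finset.mem_Icc.2 ⟨by omega, by omega⟩)
      · by_cases hj2 : j ≤ 3 * k
        · exact hmax _ (Finset.mem_Icc.2 ⟨hj, hj2⟩)
        · have := ih (j - 3 * k) (by omega)
          rwa [← hper (j - 3 * k), Nat.sub_add_cancel (by omega)] at this
  obtain ⟨j, rfl⟩ : ∃ j, i = j + 1 := ⟨i - 1, by have := Finset.mem_Icc.1 hi; omega⟩
  have h1 := h j
  have h2 := hall j
  have h3 := hall (j + 2)
  have h4 := hall 0
  linarith

end growth

section density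

variable {K : Type u} [Field K] [NumberField K]

/-- **Zariski density of the points of a chain in a progression.** -/
theorem dense {T : Fin 4 → Fin 4 → Fin 4 → K} (h0 : NC T) (h1 : NC (rot T))
    (h2 : NC (rot (rot T))) (hF : Irreducible (quartic T)) (hT : ND T) {u : ℕ → Fin 4 → K}
    (hu : Chain T u) (hn : NonPer u) {m : ℕ} (hm : 1 ≤ m) {G : MvPolynomial (Fin 4) K} {g : ℕ}
    (hG : G.IsHomogeneous g) (hFG : ¬ quartic T ∣ G) :
    ∃ k : ℕ, eval (u (3 * (m * k))) G ≠ 0 := by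
  classical
  by_contra hcon
  push Not at hcon
  obtain ⟨C₀, hC₀, hchain⟩ := height_chain h0 h1 h2
  obtain ⟨d, hd⟩ := K1H24.CO.t_DIM K (quartic T) G 4 g (quartic_hom T) hG hF hFG
  obtain ⟨i₀, hi₀⟩ := growth hC₀ (fun i => hchain u hu i) (tendsto_height hT hu hn)
  set s : ℕ := d + 3 with hs
  set R : ℕ := 3 * (m * s) with hR
  -- the finitely many relations
  have hrel : ∀ D : {l : List (Fin 4) // l.length = R} × (Fin 4 × Fin 4) × (Fin 4 × Fin 4),
      ∃ (C₁ : ℝ) (S : Finset K), ∀ z : Fin 4 → K, eval z (quartic T) = 0 → eval z G = 0 →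
        eval z (bk T D.1.1 D.2.1.2) ≠ 0 → z D.2.2.2 ≠ 0 →
        eval z (bk T D.1.1 D.2.1.1) / eval z (bk T D.1.1 D.2.1.2) ∉ S →
        logHeight₁ (z D.2.2.1 / z D.2.2.2) ≤
          d * logHeight₁ (eval z (bk T D.1.1 D.2.1.1) / eval z (bk T D.1.1 D.2.1.2)) + C₁ := by
    rintro ⟨⟨l, hl⟩, ⟨i, j⟩, ⟨i', j'⟩⟩
    obtain ⟨M, c, hc, hmem⟩ := hd (3 ^ l.length) (bk T l i) (bk T l j) (bk_hom T l i) (bk_hom T l j)
      i' j'
    obtain ⟨C₁, S, hS⟩ := K1H48.CO.t_ROOT K d M c hc
    refine ⟨C₁, S, fun z hz1 hz2 hB hj' ha => hS _ _ ?_ ha⟩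
    have h3 : eval z (∑ l' : Fin (d + 1), ∑ m' : Fin (M + 1),
        C (c l' m') * (bk T l i ^ (l' : ℕ) * bk T l j ^ (d - l') *
          (X i' ^ (m' : ℕ) * X j' ^ (M - m')))) = 0 := by
      obtain ⟨p, q, hpq⟩ := Ideal.mem_span_pair.1 hmem
      rw [← hpq, map_add, map_mul, map_mul, hz1, hz2, mul_zero, mul_zero, add_zero]
    simp only at hB hj' ⊢
    set A := eval z (bk T l i)
    set B := eval z (bk T l j)
    have h4 : ∑ l' : Fin (d + 1), ∑ m' : Fin (M + 1),
        c l' m' * ((A / B) ^ (l' : ℕ) * (z i' / z j') ^ (m' : ℕ)) * (B ^ d * z j' ^ M) = 0 := by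
      rw [← h3, map_sum]
      refine Finset.sum_congr rfl fun l' _ => ?_
      rw [map_sum]
      refine Finset.sum_congr rfl fun m' _ => ?_
      simp only [map_mul, map_pow, eval_C, eval_X]
      have e1 : B ^ d = B ^ (l' : ℕ) * B ^ (d - l') := by
        rw [← pow_add]; congr 1; have := l'.2; omega
      have e2 : z j' ^ M = z j' ^ (m' : ℕ) * z j' ^ (M - m') := by
        rw [← pow_add]; congr 1; have := m'.2; omega
      rw [e1, e2, div_pow, div_pow]
      field_simp
      show _ = c l' m' * z i' ^ (m' : ℕ) * A ^ (l' : ℕ) * B ^ (d - l')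
      ring
    simp only [← Finset.sum_mul] at h4
    exact (mul_eq_zero.1 h4).resolve_right (mul_ne_zero (pow_ne_zero _ hB) (pow_ne_zero _ hj'))
  choose C₁ S hCS using hrel
  have hfin : Finite {l : List (Fin 4) // l.length = R} :=
    (List.finite_length_eq (Fin 4) R).to_subtype
  have := Fintype.ofFinite {l : List (Fin 4) // l.length = R}
  set Cm : ℝ := ∑ D, |C₁ D| with hCm
  have hCm' : ∀ D, C₁ D ≤ Cm := fun D => (le_abs_self _).trans
    (Finset.single_le_sum (f := fun D => |C₁ D|) (fun _ _ => abs_nonneg _) (Finset.mem_univ D))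
  set SS : Finset K := Finset.univ.biUnion S with hSS
  set Hm : ℝ := ∑ a ∈ SS, logHeight₁ a with hHm
  have hHm' : ∀ a ∈ SS, logHeight₁ a ≤ Hm := fun a ha =>
    Finset.single_le_sum (f := fun a => logHeight₁ a) (fun _ _ => zero_le_logHeight₁ _) ha
  -- a point of large height
  have hlim : Tendsto (fun k => logHeight (u (3 * (m * k)))) atTop atTop := by
    refine (tendsto_height hT hu hn).comp (tendsto_atTop_mono (fun k => ?_) tendsto_id)
    simp only [id]
    nlinarith
  obtain ⟨k, hk1, hk2, hk3⟩ := ((eventually_ge_atTop i₀).and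
    ((hlim.eventually_gt_atTop (4 * Hm)).and
      (hlim.eventually_gt_atTop (8 * (d + 1) * C₀ + 4 * Cm)))).exists
  have hki : i₀ ≤ 3 * (m * k) := by nlinarith
  set z := u (3 * (m * (k + s))) with hz
  set y := u (3 * (m * k)) with hy
  have hidx : 3 * (m * (k + s)) = 3 * (m * k) + R := by rw [hR]; ring
  obtain ⟨l, hl, t, ht, hbk⟩ := exists_bk hT hu (m * (k + s)) R (by rw [hidx]; omega)
  have hbk' : ∀ a, eval z (bk T l a) = t * y a := by
    intro a
    rw [hbk a, hidx, Nat.add_sub_cancel]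
  obtain ⟨i, j, hj, hyh⟩ := logHeight_le_ratio (z := y) (hu.ne _)
  obtain ⟨i', j', hj', hzh⟩ := logHeight_le_ratio (z := z) (hu.ne _)
  have hz1 : eval z (quartic T) = 0 := by
    rw [eval_quartic]
    have := hu.det (3 * (m * (k + s)))
    have e := rot_iterate_add T 0 (m * (k + s))
    rw [zero_add] at e
    rw [e] at this
    exact this
  have hab : eval z (bk T l i) / eval z (bk T l j) = y i / y j := by
    rw [hbk', hbk', mul_div_mul_left _ _ ht]
  have h5 := hCS (⟨l, hl⟩, (i, j), (i', j')) z hz1 (hcon (k + s)) (by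
    rw [hbk']; exact mul_ne_zero ht hj) hj'
  simp only [hab] at h5
  have h6 := h5 (by
    intro hmem
    have h7 := hHm' (y i / y j) (Finset.mem_biUnion.2 ⟨_, Finset.mem_univ _, hmem⟩)
    linarith)
  have h7 := hCm' (⟨l, hl⟩, (i, j), (i', j'))
  have h8 : logHeight₁ (y i / y j) ≤ logHeight y := logHeight₁_ratio_le y
  have h9 := hi₀ (3 * (m * k)) hki R
  rw [← hidx] at h9
  have h10 : (8 * ((d : ℝ) + 1)) ≤ 2 ^ R := by
    have e1 : s ≤ R := by rw [hR]; nlinarith
    have e2 : (2 : ℝ) ^ s ≤ 2 ^ R := pow_le_pow_right₀ (by norm_num) e1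
    have e3 : ((d : ℝ) + 1) ≤ 2 ^ d := by
      have : d + 1 ≤ 2 ^ d := Nat.lt_two_pow_self
      exact_mod_cast this
    have e4 : (2 : ℝ) ^ s = 2 ^ d * 8 := by rw [hs, pow_add]; norm_num
    linarith
  have hd0 : (0 : ℝ) ≤ d := Nat.cast_nonneg _
  have hCm0 : 0 ≤ Cm := Finset.sum_nonneg fun _ _ => abs_nonneg _
  have hyC : C₀ ≤ logHeight y := by nlinarith
  have h11 : 8 * ((d : ℝ) + 1) * (logHeight y - C₀) ≤ logHeight z - C₀ :=
    (mul_le_mul_of_nonneg_right h10 (by linarith)).trans h9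
  have h12 : logHeight z ≤ 4 * (d * logHeight y + Cm) := by
    have e1 : (d : ℝ) * logHeight₁ (y i / y j) ≤ d * logHeight y :=
      mul_le_mul_of_nonneg_left h8 hd0
    linarith
  nlinarith

end density

end Pool.Agent.K1H47.CO
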