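import Pool.Agent.K1H47.CO.Rec
import Pool.Agent.K1H47.CO.Dens

/-! # Simultaneous local Zariski closures on the determinantal quartics (helper47) -/

set_option autoImplicit false
set_option linter.unusedSectionVars false

namespace Pool.Agent.K1H47.CO

open Matrix MvPolynomial Height

universe u v

section poly

variable {K : Type*} [Field K]

lemma eval_smul_hom {n : ℕ} {f : MvPolynomial (Fin 4) K} (hf : f.IsHomogeneous n) (t : K)
    (z : Fin 4 → K) : eval (t • z) f = t ^ n * eval z f := by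
  rw [eval_eq', eval_eq', Finset.mul_sum]
  refine Finset.sum_congr rfl fun m hm => ?_
  have h1 : ∑ i, m i = n := by
    have := hf (mem_support_iff.1 hm)
    rw [Finsupp.weight_apply, Finsupp.sum_fintype _ _ (fun _ => by simp)] at this
    simpa using this
  simp only [Pi.smul_apply, smul_eq_mul, mul_pow, Finset.prod_mul_distrib, Finset.prod_pow_eq_pow_sum,
    h1]
  ring

/-- a polynomial that vanishes on a line vanishes there with its homogeneous components -/
lemma comp_zero [Infinite K] {f : MvPolynomial (Fin 4) K} {z : Fin 4 → K}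
    (h : ∀ t : K, eval (t • z) f = 0) (n : ℕ) : eval z (homogeneousComponent n f) = 0 := by
  set p : Polynomial K := ∑ i ∈ Finset.range (f.totalDegree + 1),
    Polynomial.C (eval z (homogeneousComponent i f)) * Polynomial.X ^ i with hp
  have h1 : ∀ t, p.eval t = 0 := by
    intro t
    rw [← h t, hp, Polynomial.eval_finsetSum]
    conv_rhs => rw [← sum_homogeneousComponent f]
    rw [map_sum]
    refine Finset.sum_congr rfl fun i _ => ?_
    rw [eval_smul_hom (homogeneousComponent_isHomogeneous i f)]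
    simp
    ring
  have h2 : p = 0 := Polynomial.funext (by simpa using h1)
  by_cases hn : n < f.totalDegree + 1
  · have h3 := congrArg (fun q => Polynomial.coeff q n) h2
    simp only [hp, Polynomial.finsetSum_coeff, Polynomial.coeff_C_mul, Polynomial.coeff_X_pow,
      Polynomial.coeff_zero, mul_ite, mul_one, mul_zero] at h3
    rwa [Finset.sum_ite_eq, if_pos (Finset.mem_range.2 hn)] at h3
  · rw [homogeneousComponent_eq_zero n f (by omega), map_zero]

lemma exists_comp {F f : MvPolynomial (Fin 4) K} (h : ¬ F ∣ f) :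
    ∃ n, ¬ F ∣ homogeneousComponent n f := by
  by_contra hcon
  push Not at hcon
  apply h
  rw [← sum_homogeneousComponent f]
  exact Finset.dvd_sum fun n _ => hcon n

end poly

section multi

variable {K : Type u} [Field K] {ι : Type*} [Finite ι] {L : ι → Type v}
  [∀ i, NontriviallyNormedField (L i)] [∀ i, IsUltrametricDist (L i)]

/-- the point `P` has representatives in `U` -/
def Reach (σ : ∀ i, K →+* L i) (U : Set (∀ i, Fin 4 → L i)) (P : Fin 4 → K) : Prop :=
  ∃ c : ∀ i, L i, (∀ i, c i ≠ 0) ∧ (fun i a => c i * σ i (P a)) ∈ U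

/-- the `K`-points of the quartic surface -/
def Pt (T : Fin 4 → Fin 4 → Fin 4 → K) (P : Fin 4 → K) : Prop := P ≠ 0 ∧ eval P (quartic T) = 0

/-- the polynomials which vanish at all multiples of all `K`-points that are close to `x` -/
def locI (T : Fin 4 → Fin 4 → Fin 4 → K) (σ : ∀ i, K →+* L i) (x : ∀ i, Fin 4 → L i) :
    Set (MvPolynomial (Fin 4) K) :=
  {f | ∃ U ∈ nhds x, ∀ P, Pt T P → Reach σ U P → ∀ t : K, eval (t • P) f = 0}

lemma reach_of_close {σ : ∀ i, K →+* L i} {U : Set (∀ i, Fin 4 → L i)} {P : Fin 4 → K}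
    {c : ∀ i, L i} (hc : ∀ i, c i ≠ 0) (hU : U ∈ nhds (fun i a => c i * σ i (P a))) :
    ∃ ε : ℝ, 0 < ε ∧ ε < 1 ∧ ∀ Q : Fin 4 → K,
      (∀ i, Close ε (fun a => σ i (P a)) (fun a => σ i (Q a))) → Reach σ U Q := by
  have := Fintype.ofFinite ι
  obtain ⟨r, hr, hball⟩ := Metric.mem_nhds_iff.1 hU
  set B : ℝ := ∑ i, ‖c i‖ * ‖(fun a => σ i (P a))‖ with hB
  have hB0 : 0 ≤ B := Finset.sum_nonneg fun _ _ => by positivity
  have hBi : ∀ i, ‖c i‖ * ‖(fun a => σ i (P a))‖ ≤ B := fun i =>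
    Finset.single_le_sum (f := fun i => ‖c i‖ * ‖(fun a => σ i (P a))‖)
      (fun _ _ => by positivity) (Finset.mem_univ i)
  refine ⟨min (1 / 2) (r / (2 * (B + 1))), by positivity, by
    have := min_le_left (1 / 2 : ℝ) (r / (2 * (B + 1)))
    linarith, fun Q hQ => ?_⟩
  choose d hd hd' using hQ
  refine ⟨fun i => c i * d i, fun i => mul_ne_zero (hc i) (hd i), hball ?_⟩
  rw [Metric.mem_ball, dist_pi_lt_iff hr]
  intro i
  have h1 := hd' i
  have e : (fun a => c i * d i * σ i (Q a)) - (fun a => c i * σ i (P a)) =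
      -(c i • ((fun a => σ i (P a)) - d i • fun a => σ i (Q a))) := by
    funext a
    simp only [Pi.sub_apply, Pi.smul_apply, Pi.neg_apply, smul_eq_mul]
    ring
  rw [dist_eq_norm, e, norm_neg, norm_smul]
  have h2 : min (1 / 2) (r / (2 * (B + 1))) ≤ r / (2 * (B + 1)) := min_le_right _ _
  have hc0 := norm_nonneg (c i)
  have hP0 := norm_nonneg (fun a => σ i (P a))
  calc ‖c i‖ * ‖(fun a => σ i (P a)) - d i • fun a => σ i (Q a)‖ ≤
      ‖c i‖ * (min (1 / 2) (r / (2 * (B + 1))) * ‖(fun a => σ i (P a))‖) := by gcongr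
    _ ≤ ‖c i‖ * (r / (2 * (B + 1)) * ‖(fun a => σ i (P a))‖) := by gcongr
    _ = r / (2 * (B + 1)) * (‖c i‖ * ‖(fun a => σ i (P a))‖) := by ring
    _ ≤ r / (2 * (B + 1)) * B := by
        apply mul_le_mul_of_nonneg_left (hBi i)
        positivity
    _ < r := by
        rw [div_mul_eq_mul_div, div_lt_iff₀ (by positivity)]
        nlinarith

/-- two proportional vectors -/
lemma prop_of_map {L' : Type*} [Field L'] (σ : K →+* L') {P Q : Fin 4 → K} (hP : P ≠ 0)
    {c : L'} (h : (fun a => σ (Q a)) = c • fun a => σ (P a)) : ∃ t : K, Q = t • P := by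
  obtain ⟨b, hb⟩ : ∃ b, P b ≠ 0 := by
    by_contra h0
    push Not at h0
    exact hP (funext h0)
  refine ⟨Q b / P b, ?_⟩
  funext a
  have h1 := congrFun h a
  have h2 := congrFun h b
  simp only [Pi.smul_apply, smul_eq_mul] at h1 h2 ⊢
  apply σ.injective
  have hb' : σ (P b) ≠ 0 := by simpa using hb
  rw [map_mul, map_div₀, h1, h2]
  field_simp

/-- a point which is not proportional to `x` is not close to `x` -/
lemma exists_nhds_far {σ : ∀ i, K →+* L i} {x : ∀ i, Fin 4 → L i} (hx : ∀ i, x i ≠ 0)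
    {e : Fin 4 → K} (he : e ≠ 0) (h : ¬ ∀ i, ∃ c : L i, c ≠ 0 ∧ x i = c • fun a => σ i (e a)) :
    ∃ U ∈ nhds x, ∀ t : K, t ≠ 0 → ¬ Reach σ U (t • e) := by
  push Not at h
  obtain ⟨i, hi⟩ := h
  obtain ⟨b, hb⟩ : ∃ b, e b ≠ 0 := by
    by_contra h0
    push Not at h0
    exact he (funext h0)
  have hb' : σ i (e b) ≠ 0 := by simpa using hb
  obtain ⟨a, ha⟩ : ∃ a, x i a * σ i (e b) - x i b * σ i (e a) ≠ 0 := by
    by_contra hcon
    push Not at hcon
    have h1 : x i = (x i b / σ i (e b)) • fun a => σ i (e a) := by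
      funext a
      have := hcon a
      simp only [Pi.smul_apply, smul_eq_mul]
      field_simp
      linear_combination this
    have h2 : x i b / σ i (e b) ≠ 0 := by
      intro h0
      rw [h0, zero_smul] at h1
      exact hx i h1
    exact hi _ h2 h1
  refine ⟨{y | y i a * σ i (e b) - y i b * σ i (e a) ≠ 0}, ?_, ?_⟩
  · have hcont : Continuous fun y : ∀ i, Fin 4 → L i =>
        y i a * σ i (e b) - y i b * σ i (e a) := by fun_prop
    exact (isOpen_ne.preimage hcont).mem_nhds ha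
  · rintro t _ ⟨c, -, hc⟩
    apply hc
    simp only [Pi.smul_apply, smul_eq_mul, map_mul]
    ring

variable [NumberField K] [∀ i, CompleteSpace (L i)]

/-- **Density near the nonperiodic points.** -/
theorem near {T : Fin 4 → Fin 4 → Fin 4 → K} (h0 : NC T) (h1 : NC (rot T))
    (h2 : NC (rot (rot T))) (hF : Irreducible (quartic T)) (hT : ND T)
    {σ : ∀ i, K →+* L i} (hσ : ∀ i, DenseRange (σ i)) (hg : ∀ i, Good T (σ i))
    {P : Fin 4 → K} (hP : Pt T P) (hn : NonPer (seqU T P)) {U : Set (∀ i, Fin 4 → L i)}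
    {c : ∀ i, L i} (hc : ∀ i, c i ≠ 0) (hU : U ∈ nhds (fun i a => c i * σ i (P a)))
    {f : MvPolynomial (Fin 4) K} (hf : ¬ quartic T ∣ f) :
    ∃ Q, Pt T Q ∧ Reach σ U Q ∧ ∃ t : K, eval (t • Q) f ≠ 0 := by
  have : CharZero K := inferInstance
  have : ∀ i, ProperSpace (L i) := fun i => W279.Tri.properSpace_of_denseRange (σ i) (hσ i)
  obtain ⟨ε, hε0, hε1, hε⟩ := reach_of_close hc hU
  have hu : Chain T (seqU T P) := seqU_chain hP.1 (by rw [← eval_quartic]; exact hP.2)
  obtain ⟨m, hm, hrec⟩ := recurrence L σ hg hu hε0 hε1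
  obtain ⟨n, hn'⟩ := exists_comp hf
  obtain ⟨k, hk⟩ := dense h0 h1 h2 hF hT hu hn hm (homogeneousComponent_isHomogeneous n f) hn'
  refine ⟨seqU T P (3 * (m * k)), ⟨hu.ne _, ?_⟩, hε _ fun i => hrec k i, ?_⟩
  · rw [eval_quartic]
    have h3 := hu.det (3 * (m * k))
    have e := rot_iterate_add T 0 (m * k)
    rw [zero_add] at e
    rw [e] at h3
    exact h3
  · by_contra hcon
    push Not at hcon
    exact hk (comp_zero hcon n)

/-- **The trichotomy.** -/
theorem trichotomy {T : Fin 4 → Fin 4 → Fin 4 → K} (h0 : NC T) (h1 : NC (rot T))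
    (h2 : NC (rot (rot T))) (hF : Irreducible (quartic T)) (hT : ND T)
    {E : Finset (Fin 4 → K)} (hE : ∀ e ∈ E, Pt T e)
    (hE' : ∀ P, Pt T P → ¬ NonPer (seqU T P) → ∃ e ∈ E, ∃ t : K, t ≠ 0 ∧ P = t • e) [Nonempty ι]
    {σ : ∀ i, K →+* L i} (hσ : ∀ i, DenseRange (σ i)) (hg : ∀ i, Good T (σ i))
    {x : ∀ i, Fin 4 → L i} (hx : ∀ i, x i ≠ 0) :
    locI T σ x = Set.univ ∨ locI T σ x = {f | quartic T ∣ f} ∨
      ∃ e ∈ E, (∀ i, ∃ c : L i, c ≠ 0 ∧ x i = c • fun a => σ i (e a)) ∧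
        locI T σ x = {f | ∀ t : K, eval (t • e) f = 0} := by
  classical
  by_cases hA : ∀ U ∈ nhds x, ∃ P, Pt T P ∧ NonPer (seqU T P) ∧ Reach σ U P
  · right; left
    ext f
    constructor
    · rintro ⟨U, hU, hfU⟩
      by_contra hf
      obtain ⟨V, hVU, hVo, hxV⟩ := mem_nhds_iff.1 hU
      obtain ⟨P, hP, hn, c, hc, hcV⟩ := hA V (hVo.mem_nhds hxV)
      obtain ⟨Q, hQ, hQV, t, ht⟩ := near h0 h1 h2 hF hT hσ hg hP hn hc (hVo.mem_nhds hcV) hf
      obtain ⟨d, hd, hdV⟩ := hQV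
      exact ht (hfU Q hQ ⟨d, hd, hVU hdV⟩ t)
    · rintro ⟨g, rfl⟩
      refine ⟨Set.univ, Filter.univ_mem, fun P hP _ t => ?_⟩
      rw [map_mul, eval_smul_hom (quartic_hom T), hP.2, mul_zero, zero_mul]
  · push Not at hA
    obtain ⟨U₀, hU₀, hA⟩ := hA
    have hfar : ∀ e : E, (¬ ∀ i, ∃ c : L i, c ≠ 0 ∧ x i = c • fun a => σ i ((e : Fin 4 → K) a)) →
        ∃ U ∈ nhds x, ∀ t : K, t ≠ 0 → ¬ Reach σ U (t • (e : Fin 4 → K)) := fun e he =>
      exists_nhds_far hx (hE e e.2).1 he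
    set V : E → Set (∀ i, Fin 4 → L i) := fun e =>
      if h : ¬ ∀ i, ∃ c : L i, c ≠ 0 ∧ x i = c • fun a => σ i ((e : Fin 4 → K) a)
        then (hfar e h).choose else Set.univ with hV
    have hVn : ∀ e, V e ∈ nhds x := by
      intro e
      by_cases h : ¬ ∀ i, ∃ c : L i, c ≠ 0 ∧ x i = c • fun a => σ i ((e : Fin 4 → K) a)
      · have : V e = (hfar e h).choose := by simp only [hV]; rw [dif_pos h]
        rw [this]
        exact (hfar e h).choose_spec.1
      · have : V e = Set.univ := by simp only [hV]; rw [dif_neg h]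
        rw [this]
        exact Filter.univ_mem
    set U₁ : Set (∀ i, Fin 4 → L i) := U₀ ∩ ⋂ e, V e with hU₁
    have hU₁n : U₁ ∈ nhds x := Filter.inter_mem hU₀ (Filter.iInter_mem.2 hVn)
    have hkey : ∀ P, Pt T P → Reach σ U₁ P → ∃ e ∈ E, (∃ t : K, t ≠ 0 ∧ P = t • e) ∧
        ∀ i, ∃ c : L i, c ≠ 0 ∧ x i = c • fun a => σ i (e a) := by
      rintro P hP ⟨c, hc, hcU⟩
      have h3 : ¬ NonPer (seqU T P) := fun hn => hA P hP hn ⟨c, hc, hcU.1⟩
      obtain ⟨e, he, t, ht, hPe⟩ := hE' P hP h3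
      refine ⟨e, he, ⟨t, ht, hPe⟩, ?_⟩
      by_contra hcon
      have h4 := (hfar ⟨e, he⟩ hcon).choose_spec.2 t ht
      apply h4
      refine ⟨c, hc, ?_⟩
      have h5 := Set.mem_iInter.1 hcU.2 ⟨e, he⟩
      have : V ⟨e, he⟩ = (hfar ⟨e, he⟩ hcon).choose := by simp only [hV]; rw [dif_pos hcon]
      rw [this] at h5
      rw [← hPe]
      exact h5
    by_cases hB : ∃ e ∈ E, ∀ i, ∃ c : L i, c ≠ 0 ∧ x i = c • fun a => σ i (e a)
    · right; right
      obtain ⟨e, he, hxe⟩ := hB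
      refine ⟨e, he, hxe, ?_⟩
      ext f
      constructor
      · rintro ⟨U, hU, hfU⟩ t
        choose c hc hxc using hxe
        refine hfU e (hE e he) ⟨c, hc, ?_⟩ t
        have : (fun i a => c i * σ i (e a)) = x := by
          funext i
          rw [hxc i]; rfl
        rw [this]
        exact mem_of_mem_nhds hU
      · intro hf
        refine ⟨U₁, hU₁n, fun P hP hPU t => ?_⟩
        obtain ⟨e', he', ⟨s, hs, hPe⟩, hxe'⟩ := hkey P hP hPU
        obtain ⟨i⟩ := (inferInstance : Nonempty ι)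
        obtain ⟨c, hc, hxc⟩ := hxe i
        obtain ⟨c', hc', hxc'⟩ := hxe' i
        obtain ⟨r, hr⟩ := prop_of_map (σ i) (hE e he).1 (Q := e') (c := c'⁻¹ * c) (by
          rw [mul_smul, ← hxc, hxc', smul_smul, inv_mul_cancel₀ hc', one_smul])
        rw [hPe, hr, smul_smul, smul_smul]
        exact hf _
    · left
      rw [Set.eq_univ_iff_forall]
      intro f
      refine ⟨U₁, hU₁n, fun P hP hPU t => ?_⟩
      obtain ⟨e', he', -, hxe'⟩ := hkey P hP hPU
      exact absurd ⟨e', he', hxe'⟩ hB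

end multi

section final

/-- the periodic points are finitely many -/
theorem exists_E {K : Type u} [Field K] [NumberField K] {T : Fin 4 → Fin 4 → Fin 4 → K}
    (h0 : NC T) (h1 : NC (rot T)) (h2 : NC (rot (rot T))) (hT : ND T) :
    ∃ E : Finset (Fin 4 → K), (∀ e ∈ E, Pt T e) ∧
      ∀ P, Pt T P → ¬ NonPer (seqU T P) → ∃ e ∈ E, ∃ t : K, t ≠ 0 ∧ P = t • e := by
  classical
  obtain ⟨C₀, -, hchain⟩ := height_chain h0 h1 h2
  obtain ⟨E, hE⟩ := northcott (K := K) C₀
  refine ⟨E.filter (Pt T), fun e he => (Finset.mem_filter.1 he).2, fun P hP hn => ?_⟩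
  have hu : Chain T (seqU T P) := seqU_chain hP.1 (by rw [← eval_quartic]; exact hP.2)
  have h3 := per_height hT hu (fun i => hchain _ hu i) hn
  obtain ⟨e, he, t, ht, h⟩ := hE P hP.1 h3
  refine ⟨e, Finset.mem_filter.2 ⟨he, ?_, ?_⟩, t, ht, h⟩
  · rintro rfl
    rw [smul_zero] at h
    exact hP.1 h
  · have h4 := hP.2
    rw [h, eval_smul_hom (quartic_hom T)] at h4
    exact (mul_eq_zero.1 h4).resolve_left (pow_ne_zero _ ht)

lemma ND_of_NC {K : Type u} [Field K] {T : Fin 4 → Fin 4 → Fin 4 → K}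
    (h0 : NC T) (h1 : NC (rot T)) (h2 : NC (rot (rot T))) : ND T := by
  intro j u hu
  have e : rot^[j] T = rot^[j % 3] T := by
    conv_lhs => rw [← Nat.mod_add_div j 3]
    exact rot_iterate_add T (j % 3) (j / 3)
  rw [e]
  have h3 : j % 3 < 3 := Nat.mod_lt _ (by norm_num)
  interval_cases j % 3
  · exact h0.adj hu
  · exact h1.adj hu
  · exact h2.adj hu

end final

end Pool.Agent.K1H47.CO
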