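import Pool.Agent.K1H47.CO.Null

/-! # Places of good reduction: the chain maps are isometries (helper47) -/

set_option autoImplicit false
set_option linter.unusedSectionVars false

namespace Pool.Agent.K1H47.CO

open Matrix MvPolynomial

section ultra

variable {L : Type*} [NontriviallyNormedField L] [IsUltrametricDist L]

/-- integral elements have norm at most one -/
lemma norm_le_one_of_isIntegral {y : L} (hy : IsIntegral ℤ y) : ‖y‖ ≤ 1 := by
  by_contra hn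
  push Not at hn
  obtain ⟨p, hp, hpy⟩ := hy
  have h1 : y ^ p.natDegree = -∑ i ∈ Finset.range p.natDegree, (p.coeff i : L) * y ^ i := by
    rw [Polynomial.eval₂_eq_sum_range, Finset.sum_range_succ] at hpy
    have h2 : (algebraMap ℤ L) (p.coeff p.natDegree) = 1 := by
      rw [Polynomial.coeff_natDegree, hp.leadingCoeff]; simp
    rw [h2, one_mul] at hpy
    rw [eq_neg_iff_add_eq_zero, add_comm]
    simpa using hpy
  rcases Nat.eq_zero_or_pos p.natDegree with h0 | h0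
  · rw [h0] at h1
    simp at h1
  have h2 : ‖∑ i ∈ Finset.range p.natDegree, (p.coeff i : L) * y ^ i‖ ≤
      ‖y‖ ^ (p.natDegree - 1) := by
    refine IsUltrametricDist.norm_sum_le_of_forall_le_of_nonneg (by positivity) fun i hi => ?_
    rw [norm_mul, norm_pow]
    have h3 : ‖(p.coeff i : L)‖ ≤ 1 := IsUltrametricDist.norm_intCast_le_one L _
    have h4 : ‖y‖ ^ i ≤ ‖y‖ ^ (p.natDegree - 1) :=
      pow_le_pow_right₀ hn.le (by have := Finset.mem_range.1 hi; omega)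
    calc ‖(p.coeff i : L)‖ * ‖y‖ ^ i ≤ 1 * ‖y‖ ^ (p.natDegree - 1) :=
          mul_le_mul h3 h4 (by positivity) zero_le_one
      _ = _ := one_mul _
  have h3 := congrArg norm h1
  rw [norm_neg, norm_pow] at h3
  have h4 : ‖y‖ ^ (p.natDegree - 1) < ‖y‖ ^ p.natDegree := pow_lt_pow_right₀ hn (by omega)
  linarith

lemma prod_le_one {ι : Type*} (s : Finset ι) {a : ι → L} (ha : ∀ i ∈ s, ‖a i‖ ≤ 1) :
    ‖∏ i ∈ s, a i‖ ≤ 1 := by
  rw [norm_prod]
  exact Finset.prod_le_one (fun i _ => norm_nonneg _) ha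

lemma prod_sub_le {ι : Type*} [DecidableEq ι] (s : Finset ι) {a b : ι → L} {ε : ℝ} (hε : 0 ≤ ε)
    (ha : ∀ i ∈ s, ‖a i‖ ≤ 1) (hb : ∀ i ∈ s, ‖b i‖ ≤ 1) (h : ∀ i ∈ s, ‖a i - b i‖ ≤ ε) :
    ‖∏ i ∈ s, a i - ∏ i ∈ s, b i‖ ≤ ε := by
  induction s using Finset.induction_on with
  | empty => simpa using hε
  | insert i s hi ih =>
    rw [Finset.prod_insert hi, Finset.prod_insert hi]
    have e : a i * ∏ j ∈ s, a j - b i * ∏ j ∈ s, b j =
        (a i - b i) * ∏ j ∈ s, a j + b i * (∏ j ∈ s, a j - ∏ j ∈ s, b j) := by ring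
    rw [e]
    refine (IsUltrametricDist.norm_add_le_max _ _).trans (max_le ?_ ?_)
    · rw [norm_mul]
      calc ‖a i - b i‖ * ‖∏ j ∈ s, a j‖ ≤ ε * 1 :=
            mul_le_mul (h i (Finset.mem_insert_self _ _))
              (prod_le_one s fun j hj => ha j (Finset.mem_insert_of_mem hj)) (norm_nonneg _) hε
        _ = ε := mul_one _
    · rw [norm_mul]
      calc ‖b i‖ * ‖∏ j ∈ s, a j - ∏ j ∈ s, b j‖ ≤ 1 * ε :=
            mul_le_mul (hb i (Finset.mem_insert_self _ _))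
              (ih (fun j hj => ha j (Finset.mem_insert_of_mem hj))
                (fun j hj => hb j (Finset.mem_insert_of_mem hj))
                (fun j hj => h j (Finset.mem_insert_of_mem hj))) (norm_nonneg _) zero_le_one
        _ = ε := one_mul _

lemma det_sub_le {A B : Matrix (Fin 4) (Fin 4) L} {ε : ℝ} (hε : 0 ≤ ε)
    (hA : ∀ i j, ‖A i j‖ ≤ 1) (hB : ∀ i j, ‖B i j‖ ≤ 1) (h : ∀ i j, ‖A i j - B i j‖ ≤ ε) :
    ‖A.det - B.det‖ ≤ ε := by
  rw [Matrix.det_apply, Matrix.det_apply, ← Finset.sum_sub_distrib]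
  refine IsUltrametricDist.norm_sum_le_of_forall_le_of_nonneg hε fun σ _ => ?_
  rw [← smul_sub, Units.smul_def, zsmul_eq_mul, norm_mul]
  have h1 : ‖((Equiv.Perm.sign σ : ℤ) : L)‖ ≤ 1 := IsUltrametricDist.norm_intCast_le_one L _
  calc ‖((Equiv.Perm.sign σ : ℤ) : L)‖ * ‖∏ i, A (σ i) i - ∏ i, B (σ i) i‖ ≤ 1 * ε :=
        mul_le_mul h1 (prod_sub_le _ hε (fun i _ => hA _ _) (fun i _ => hB _ _)
          (fun i _ => h _ _)) (norm_nonneg _) zero_le_one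
    _ = ε := one_mul _

lemma adj_sub_le {A B : Matrix (Fin 4) (Fin 4) L} {ε : ℝ} (hε : 0 ≤ ε)
    (hA : ∀ i j, ‖A i j‖ ≤ 1) (hB : ∀ i j, ‖B i j‖ ≤ 1) (h : ∀ i j, ‖A i j - B i j‖ ≤ ε)
    (b c : Fin 4) : ‖A.adjugate b c - B.adjugate b c‖ ≤ ε := by
  rw [Matrix.adjugate_apply, Matrix.adjugate_apply]
  have hs : ∀ j, ‖(Pi.single b 1 : Fin 4 → L) j‖ ≤ 1 := by
    intro j
    by_cases hj : j = b
    · subst hj; simp
    · rw [Pi.single_eq_of_ne hj]; simp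
  refine det_sub_le hε (fun i j => ?_) (fun i j => ?_) fun i j => ?_
  · by_cases hi : i = c
    · subst hi; rw [Matrix.updateRow_self]; exact hs j
    · rw [Matrix.updateRow_ne hi]; exact hA i j
  · by_cases hi : i = c
    · subst hi; rw [Matrix.updateRow_self]; exact hs j
    · rw [Matrix.updateRow_ne hi]; exact hB i j
  · by_cases hi : i = c
    · subst hi; rw [Matrix.updateRow_self, Matrix.updateRow_self, sub_self, norm_zero]; exact hε
    · rw [Matrix.updateRow_ne hi, Matrix.updateRow_ne hi]; exact h i j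

lemma mt_le_one {S : Fin 4 → Fin 4 → Fin 4 → L} (hS : ∀ a b c, ‖S a b c‖ ≤ 1) {x : Fin 4 → L}
    (hx : ‖x‖ ≤ 1) (b c : Fin 4) : ‖mt S x b c‖ ≤ 1 := by
  rw [mt_apply]
  refine IsUltrametricDist.norm_sum_le_of_forall_le_of_nonneg zero_le_one fun a _ => ?_
  rw [norm_mul]
  exact mul_le_one₀ (hS a b c) (norm_nonneg _) ((norm_le_pi_norm x a).trans hx)

lemma mt_sub_le {S : Fin 4 → Fin 4 → Fin 4 → L} (hS : ∀ a b c, ‖S a b c‖ ≤ 1) {x y : Fin 4 → L}
    {ε : ℝ} (hε : 0 ≤ ε) (h : ‖x - y‖ ≤ ε) (b c : Fin 4) : ‖mt S x b c - mt S y b c‖ ≤ ε := by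
  rw [mt_apply, mt_apply, ← Finset.sum_sub_distrib]
  refine IsUltrametricDist.norm_sum_le_of_forall_le_of_nonneg hε fun a _ => ?_
  rw [← mul_sub, norm_mul]
  calc ‖S a b c‖ * ‖x a - y a‖ ≤ 1 * ε :=
        mul_le_mul (hS a b c) ((norm_le_pi_norm (x - y) a).trans h) (norm_nonneg _) zero_le_one
    _ = ε := one_mul _

/-- `x` and `y` are close as points of the projective space -/
def Close (ε : ℝ) (x y : Fin 4 → L) : Prop := ∃ c : L, c ≠ 0 ∧ ‖x - c • y‖ ≤ ε * ‖x‖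

lemma norm_eq_of_sub_lt {x y : Fin 4 → L} (h : ‖x - y‖ < ‖x‖) : ‖y‖ = ‖x‖ := by
  have h1 : ‖y - x‖ < ‖x‖ := by rwa [norm_sub_rev]
  have := IsUltrametricDist.norm_add_eq_max_of_norm_ne_norm (x := y - x) (y := x) (ne_of_lt h1)
  rw [sub_add_cancel, max_eq_right h1.le] at this
  exact this

lemma Close.norm_eq {ε : ℝ} (hε : ε < 1) {x y : Fin 4 → L} (hx : x ≠ 0) {c : L}
    (h : ‖x - c • y‖ ≤ ε * ‖x‖) : ‖c • y‖ = ‖x‖ := by
  apply norm_eq_of_sub_lt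
  have : 0 < ‖x‖ := norm_pos_iff.2 hx
  nlinarith

lemma Close.refl {ε : ℝ} (hε : 0 ≤ ε) (x : Fin 4 → L) : Close ε x x :=
  ⟨1, one_ne_zero, by rw [one_smul, sub_self, norm_zero]; positivity⟩

lemma Close.symm {ε : ℝ} (hε : ε < 1) {x y : Fin 4 → L} (hx : x ≠ 0) (h : Close ε x y) :
    Close ε y x := by
  obtain ⟨c, hc, h⟩ := h
  refine ⟨c⁻¹, inv_ne_zero hc, ?_⟩
  have h1 := Close.norm_eq hε hx h
  have e : y - c⁻¹ • x = (-c⁻¹) • (x - c • y) := by
    rw [smul_sub, smul_smul, neg_mul, inv_mul_cancel₀ hc, neg_smul, neg_smul, one_smul]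
    abel
  have h2 : ‖y‖ = ‖c‖⁻¹ * ‖x‖ := by
    rw [← h1, norm_smul, ← mul_assoc, inv_mul_cancel₀ (norm_ne_zero_iff.2 hc), one_mul]
  rw [e, norm_smul, norm_neg, norm_inv, h2]
  calc ‖c‖⁻¹ * ‖x - c • y‖ ≤ ‖c‖⁻¹ * (ε * ‖x‖) := by gcongr
    _ = _ := by ring

lemma Close.trans {ε : ℝ} (hε0 : 0 ≤ ε) (hε : ε < 1) {x y z : Fin 4 → L} (hx : x ≠ 0)
    (h : Close ε x y) (h' : Close ε y z) : Close ε x z := by
  obtain ⟨c, hc, h⟩ := h
  obtain ⟨d, hd, h'⟩ := h'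
  refine ⟨c * d, mul_ne_zero hc hd, ?_⟩
  have h1 := Close.norm_eq hε hx h
  have e : x - (c * d) • z = (x - c • y) + c • (y - d • z) := by
    rw [smul_sub, smul_smul]; abel
  rw [e]
  refine (IsUltrametricDist.norm_add_le_max _ _).trans (max_le h ?_)
  rw [norm_smul]
  calc ‖c‖ * ‖y - d • z‖ ≤ ‖c‖ * (ε * ‖y‖) := by gcongr
    _ = ε * ‖c • y‖ := by rw [norm_smul]; ring
    _ = ε * ‖x‖ := by rw [h1]

lemma exists_norm_one {x : Fin 4 → L} (hx : x ≠ 0) : ∃ t : L, t ≠ 0 ∧ ‖t • x‖ = 1 := by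
  obtain ⟨i, hi⟩ : ∃ i, ‖x i‖ = ‖x‖ := by
    obtain ⟨i, -, hi⟩ := Finset.exists_mem_eq_sup' (s := (Finset.univ : Finset (Fin 4)))
      ⟨0, Finset.mem_univ _⟩ (fun i => ‖x i‖)
    refine ⟨i, le_antisymm (norm_le_pi_norm x i) ?_⟩
    rw [pi_norm_le_iff_of_nonneg (norm_nonneg _)]
    intro j
    have := Finset.le_sup' (fun i => ‖x i‖) (Finset.mem_univ j)
    rw [hi] at this
    exact this
  have hpos : 0 < ‖x‖ := norm_pos_iff.2 hx
  have hxi : x i ≠ 0 := by rw [← norm_ne_zero_iff, hi]; exact hpos.ne'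
  refine ⟨(x i)⁻¹, inv_ne_zero hxi, ?_⟩
  rw [norm_smul, norm_inv, hi, inv_mul_cancel₀ hpos.ne']

/-- unimodular adjugates -/
def Uni (S : Fin 4 → Fin 4 → Fin 4 → L) : Prop :=
  (∀ a b c, ‖S a b c‖ ≤ 1) ∧ ∀ x : Fin 4 → L, ‖x‖ = 1 → ∃ b c, 1 ≤ ‖(mt S x).adjugate b c‖

/-- the next point depends on the point in a Lipschitz way -/
lemma Uni.step {S : Fin 4 → Fin 4 → Fin 4 → L} (hS : Uni S) {ε : ℝ} (hε0 : 0 ≤ ε) (hε : ε < 1)
    {x x' y y' : Fin 4 → L} (hx : x ≠ 0) (hy : y ≠ 0) (hy' : y' ≠ 0)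
    (h : Rel S x y) (h' : Rel S x' y') (hc : Close ε x x') : Close ε y y' := by
  obtain ⟨c, hc0, hc⟩ := hc
  obtain ⟨t, ht, ht1⟩ := exists_norm_one hx
  have hn := Close.norm_eq hε hx hc
  have h1 : ‖t • x - (t * c) • x'‖ ≤ ε := by
    rw [mul_smul, ← smul_sub, norm_smul]
    calc ‖t‖ * ‖x - c • x'‖ ≤ ‖t‖ * (ε * ‖x‖) := by gcongr
      _ = ε * ‖t • x‖ := by rw [norm_smul]; ring
      _ = ε := by rw [ht1, mul_one]
  have h2 : ‖(t * c) • x'‖ = 1 := by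
    rw [mul_smul, norm_smul, hn, ← norm_smul, ht1]
  have hR : y ᵥ* mt S (t • x) = 0 := by
    have : y ᵥ* mt S x = 0 := h
    rw [mt_smul, Matrix.vecMul_smul, this, smul_zero]
  have hR' : y' ᵥ* mt S ((t * c) • x') = 0 := by
    have : y' ᵥ* mt S x' = 0 := h'
    rw [mt_smul, Matrix.vecMul_smul, this, smul_zero]
  set A := mt S (t • x) with hA
  set B := mt S ((t * c) • x') with hB
  have hdA : A.det = 0 := Matrix.exists_vecMul_eq_zero_iff.1 ⟨y, hy, hR⟩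
  have hdB : B.det = 0 := Matrix.exists_vecMul_eq_zero_iff.1 ⟨y', hy', hR'⟩
  obtain ⟨b, e, hbe⟩ := hS.2 _ ht1
  have hsub : ∀ j, ‖A.adjugate b j - B.adjugate b j‖ ≤ ε := fun j =>
    adj_sub_le hε0 (mt_le_one hS.1 ht1.le) (mt_le_one hS.1 h2.le) (mt_sub_le hS.1 hε0 h1) b j
  have hAne : A.adjugate ≠ 0 := by
    intro h0
    rw [h0] at hbe
    simp at hbe
    linarith
  have hrA : A.adjugate b ≠ 0 := by
    intro h0
    rw [h0] at hbe
    simp at hbe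
    linarith
  have hnr : ‖A.adjugate b - B.adjugate b‖ ≤ ε := by
    rw [pi_norm_le_iff_of_nonneg hε0]
    exact hsub
  have h1A : 1 ≤ ‖A.adjugate b‖ := hbe.trans (norm_le_pi_norm _ e)
  have hnB : ‖B.adjugate b‖ = ‖A.adjugate b‖ := norm_eq_of_sub_lt (by linarith)
  have hrB : B.adjugate b ≠ 0 := by
    intro h0
    rw [h0, norm_zero] at hnB
    linarith
  have hBne : B.adjugate ≠ 0 := by
    intro h0
    apply hrB
    rw [h0]
    rfl
  obtain ⟨s, hs⟩ := left_unique hAne hy hR (adj_row A hdA b)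
  obtain ⟨s', hs'⟩ := left_unique hBne hy' hR' (adj_row B hdB b)
  have hs0 : s ≠ 0 := by
    rintro rfl
    rw [zero_smul] at hs
    exact hrA hs
  have hs0' : s' ≠ 0 := by
    rintro rfl
    rw [zero_smul] at hs'
    exact hrB hs'
  refine ⟨s⁻¹ * s', mul_ne_zero (inv_ne_zero hs0) hs0', ?_⟩
  have e1 : y - (s⁻¹ * s') • y' = s⁻¹ • (A.adjugate b - B.adjugate b) := by
    rw [hs, hs', smul_sub, smul_smul, smul_smul, inv_mul_cancel₀ hs0, one_smul]
  have e2 : ‖y‖ = ‖s‖⁻¹ * ‖A.adjugate b‖ := by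
    rw [hs, norm_smul, ← mul_assoc, inv_mul_cancel₀ (norm_ne_zero_iff.2 hs0), one_mul]
  rw [e1, norm_smul, norm_inv, e2]
  have hs1 : 0 ≤ ‖s‖⁻¹ := by positivity
  calc ‖s‖⁻¹ * ‖A.adjugate b - B.adjugate b‖ ≤ ‖s‖⁻¹ * ε := by gcongr
    _ ≤ ‖s‖⁻¹ * (ε * ‖A.adjugate b‖) := by
        apply mul_le_mul_of_nonneg_left _ hs1
        nlinarith
    _ = _ := by ring

/-- the transposed tensor -/
def tau (S : Fin 4 → Fin 4 → Fin 4 → L) : Fin 4 → Fin 4 → Fin 4 → L := fun a b c => S a c b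

omit [IsUltrametricDist L] in
lemma mt_tau (S : Fin 4 → Fin 4 → Fin 4 → L) (x : Fin 4 → L) : mt (tau S) x = (mt S x)ᵀ := rfl

lemma Uni.tau {S : Fin 4 → Fin 4 → Fin 4 → L} (hS : Uni S) : Uni (tau S) := by
  refine ⟨fun a b c => hS.1 a c b, fun x hx => ?_⟩
  obtain ⟨b, c, h⟩ := hS.2 x hx
  refine ⟨c, b, ?_⟩
  rw [mt_tau, ← Matrix.adjugate_transpose]
  exact h

/-- and backwards -/
lemma Uni.step_bwd {S : Fin 4 → Fin 4 → Fin 4 → L} (hS : Uni (rot S)) {ε : ℝ} (hε0 : 0 ≤ ε)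
    (hε : ε < 1) {x x' y y' : Fin 4 → L} (hx : x ≠ 0) (hx' : x' ≠ 0) (hy : y ≠ 0)
    (h : Rel S x y) (h' : Rel S x' y') (hc : Close ε y y') : Close ε x x' := by
  refine hS.tau.step hε0 hε hy hx hx' ?_ ?_ hc
  · rw [rel_iff] at h
    show x ᵥ* mt (CO.tau (rot S)) y = 0
    rw [mt_tau, Matrix.vecMul_transpose]
    exact h
  · rw [rel_iff] at h'
    show x' ᵥ* mt (CO.tau (rot S)) y' = 0
    rw [mt_tau, Matrix.vecMul_transpose]
    exact h'

end ultra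

section good

variable {K : Type*} [Field K] {L : Type*} [NontriviallyNormedField L] [IsUltrametricDist L]

/-- good reduction -/
def Good (T : Fin 4 → Fin 4 → Fin 4 → K) (σ : K →+* L) : Prop :=
  ∀ i, Uni (rot^[i] (tmap σ T))

omit [IsUltrametricDist L] in
lemma Rel.map {S : Fin 4 → Fin 4 → Fin 4 → K} {u v : Fin 4 → K} (σ : K →+* L) (h : Rel S u v) :
    Rel (tmap σ S) (fun a => σ (u a)) (fun a => σ (v a)) := by
  have h1 : v ᵥ* mt S u = 0 := h
  show (fun a => σ (v a)) ᵥ* mt (tmap σ S) (fun a => σ (u a)) = 0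
  rw [mt_tmap]
  ext c
  have h2 := congrArg σ (congrFun h1 c)
  simpa [Matrix.vecMul, dotProduct, map_sum, map_mul] using h2

omit [IsUltrametricDist L] in
lemma map_ne' {σ : K →+* L} {u : Fin 4 → K} (hu : u ≠ 0) : (fun a => σ (u a)) ≠ 0 := by
  intro h0
  apply hu
  funext a
  have := congrFun h0 a
  simpa using this

lemma Chain.close_iff {T : Fin 4 → Fin 4 → Fin 4 → K} {σ : K →+* L} (hT : Good T σ)
    {u u' : ℕ → Fin 4 → K} (h : Chain T u) (h' : Chain T u') {ε : ℝ} (hε0 : 0 ≤ ε) (hε : ε < 1)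
    (i : ℕ) : Close ε (fun a => σ (u i a)) (fun a => σ (u' i a)) ↔
      Close ε (fun a => σ (u 0 a)) (fun a => σ (u' 0 a)) := by
  induction i with
  | zero => exact Iff.rfl
  | succ i ih =>
    rw [← ih]
    have h1 := (h.rel i).map σ
    have h1' := (h'.rel i).map σ
    rw [← rot_iterate_tmap] at h1 h1'
    constructor
    · intro hc
      refine Uni.step_bwd (S := rot^[i] (tmap σ T)) ?_ hε0 hε (map_ne' (h.ne _)) (map_ne' (h'.ne _))
        (map_ne' (h.ne _)) h1 h1' hc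
      have := hT (i + 1)
      rwa [Function.iterate_succ_apply'] at this
    · intro hc
      exact (hT i).step hε0 hε (map_ne' (h.ne _)) (map_ne' (h.ne _)) (map_ne' (h'.ne _)) h1 h1' hc

end good

end Pool.Agent.K1H47.CO
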