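import Pool.Agent.K1H47.CO.Alg

/-! # The Nullstellensatz for the cubic minors (helper47) -/

set_option autoImplicit false

namespace Pool.Agent.K1H47.CO

open Matrix MvPolynomial Height

section

variable {K : Type*} [Field K]

/-- the entries of the adjugate of `T(x, ·, ·)` as cubic forms -/
noncomputable def adjP (S : Fin 4 → Fin 4 → Fin 4 → K) (j : Fin 4 × Fin 4) :
    MvPolynomial (Fin 4) K :=
  (mt (tmap (C : K →+* MvPolynomial (Fin 4) K) S) X).adjugate j.1 j.2

/-- the determinant of `T(x, ·, ·)` as a quartic form -/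
noncomputable def quartic (S : Fin 4 → Fin 4 → Fin 4 → K) : MvPolynomial (Fin 4) K :=
  (mt (tmap (C : K →+* MvPolynomial (Fin 4) K) S) X).det

lemma mtX_hom (S : Fin 4 → Fin 4 → Fin 4 → K) (b c : Fin 4) :
    (mt (tmap (C : K →+* MvPolynomial (Fin 4) K) S) X b c).IsHomogeneous 1 := by
  rw [mt_apply]
  refine IsHomogeneous.sum _ _ _ fun a _ => ?_
  have := (isHomogeneous_C (Fin 4) (S a b c)).mul (isHomogeneous_X K a)
  simpa [tmap] using this

lemma sum_ne (c : Fin 4) (σ : Equiv.Perm (Fin 4)) :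
    ∑ i, (if σ i = c then 0 else 1) = 3 := by
  rw [Equiv.sum_comp σ (fun i => if i = c then 0 else 1)]
  fin_cases c <;> decide

lemma adjP_hom (S : Fin 4 → Fin 4 → Fin 4 → K) (j : Fin 4 × Fin 4) :
    (adjP S j).IsHomogeneous 3 := by
  unfold adjP
  rw [Matrix.adjugate_apply, Matrix.det_apply]
  refine IsHomogeneous.sum _ _ _ fun σ _ => ?_
  have h1 : (∏ i, (mt (tmap (C : K →+* MvPolynomial (Fin 4) K) S) X).updateRow j.2
      (Pi.single j.1 1) (σ i) i).IsHomogeneous (∑ i, (if σ i = j.2 then 0 else 1)) := by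
    refine IsHomogeneous.prod _ _ _ fun i _ => ?_
    by_cases hi : σ i = j.2
    · rw [if_pos hi, hi, Matrix.updateRow_self]
      by_cases hj : i = j.1
      · subst hj
        rw [Pi.single_eq_same]
        exact isHomogeneous_one _ _
      · rw [Pi.single_eq_of_ne hj]
        exact isHomogeneous_zero _ _ _
    · rw [if_neg hi, Matrix.updateRow_ne hi]
      exact mtX_hom S _ _
  rw [sum_ne] at h1
  rw [Units.smul_def, ← Int.cast_smul_eq_zsmul K]
  exact (homogeneousSubmodule (Fin 4) K 3).smul_mem _ h1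

lemma quartic_hom (S : Fin 4 → Fin 4 → Fin 4 → K) : (quartic S).IsHomogeneous 4 := by
  unfold quartic
  rw [Matrix.det_apply]
  refine IsHomogeneous.sum _ _ _ fun σ _ => ?_
  have h1 : (∏ i, mt (tmap (C : K →+* MvPolynomial (Fin 4) K) S) X (σ i) i).IsHomogeneous
      (∑ i : Fin 4, 1) := IsHomogeneous.prod _ _ _ fun i _ => mtX_hom S _ _
  have h2 : (∑ i : Fin 4, 1 : ℕ) = 4 := by simp
  rw [h2] at h1
  rw [Units.smul_def, ← Int.cast_smul_eq_zsmul K]
  exact (homogeneousSubmodule (Fin 4) K 4).smul_mem _ h1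

lemma mt_eval {A : Type*} [CommRing A] (φ : K →+* A) (S : Fin 4 → Fin 4 → Fin 4 → K)
    (u : Fin 4 → A) :
    (mt (tmap (C : K →+* MvPolynomial (Fin 4) K) S) X).map (eval₂Hom φ u) = mt (tmap φ S) u := by
  ext b c
  simp [mt_apply, tmap, Matrix.map_apply]

lemma eval₂_adjP {A : Type*} [CommRing A] (φ : K →+* A) (S : Fin 4 → Fin 4 → Fin 4 → K)
    (u : Fin 4 → A) (j : Fin 4 × Fin 4) :
    eval₂ φ u (adjP S j) = (mt (tmap φ S) u).adjugate j.1 j.2 := by
  rw [← mt_eval φ S u, ← RingHom.mapMatrix_apply, ← RingHom.map_adjugate]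
  rfl

lemma eval₂_quartic {A : Type*} [CommRing A] (φ : K →+* A) (S : Fin 4 → Fin 4 → Fin 4 → K)
    (u : Fin 4 → A) : eval₂ φ u (quartic S) = (mt (tmap φ S) u).det := by
  rw [← mt_eval φ S u, ← RingHom.mapMatrix_apply, ← RingHom.map_det]
  rfl

lemma eval_adjP (S : Fin 4 → Fin 4 → Fin 4 → K) (u : Fin 4 → K) (j : Fin 4 × Fin 4) :
    eval u (adjP S j) = (mt S u).adjugate j.1 j.2 := by
  have := eval₂_adjP (RingHom.id K) S u j
  exact this

lemma eval_quartic (S : Fin 4 → Fin 4 → Fin 4 → K) (u : Fin 4 → K) :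
    eval u (quartic S) = (mt S u).det := by
  have := eval₂_quartic (RingHom.id K) S u
  exact this

/-- rank at least three over the algebraic closure -/
def NC (S : Fin 4 → Fin 4 → Fin 4 → K) : Prop :=
  ∀ u : Fin 4 → AlgebraicClosure K, u ≠ 0 →
    (mt (tmap (algebraMap K (AlgebraicClosure K)) S) u).adjugate ≠ 0

lemma NC.adj {S : Fin 4 → Fin 4 → Fin 4 → K} (h : NC S) {u : Fin 4 → K} (hu : u ≠ 0) :
    (mt S u).adjugate ≠ 0 := by
  have h1 := h (fun a => algebraMap K (AlgebraicClosure K) (u a)) (by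
    intro h0
    apply hu
    funext a
    have := congrFun h0 a
    simpa using this)
  rw [mt_tmap] at h1
  intro h0
  apply h1
  rw [← RingHom.mapMatrix_apply, ← RingHom.map_adjugate, h0, map_zero]

/-- The Nullstellensatz for the cubic minors. -/
lemma exists_null {S : Fin 4 → Fin 4 → Fin 4 → K} (hc : NC S) :
    ∃ (M : ℕ) (q : Fin 4 × (Fin 4 × Fin 4) → MvPolynomial (Fin 4) K),
      (∀ a, (q a).IsHomogeneous M) ∧ ∀ k : Fin 4,
        ∑ j, q (k, j) * adjP S j = X k ^ (M + 3) := by
  classical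
  set I : Ideal (MvPolynomial (Fin 4) K) := Ideal.span (Set.range (adjP S)) with hI
  have hzero : ∀ w ∈ zeroLocus (AlgebraicClosure K) I, w = 0 := by
    intro w hw
    by_contra hne
    apply hc w hne
    ext b c
    have h1 : aeval w (adjP S (b, c)) = 0 := hw _ (Ideal.subset_span ⟨(b, c), rfl⟩)
    rw [aeval_def, eval₂_adjP] at h1
    exact h1
  have hrad : ∀ k, ∃ n : ℕ, (X k : MvPolynomial (Fin 4) K) ^ n ∈ I := by
    intro k
    have h1 : (X k : MvPolynomial (Fin 4) K) ∈
        vanishingIdeal K (zeroLocus (AlgebraicClosure K) I) := by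
      intro w hw
      rw [hzero w hw, aeval_X]
      rfl
    rw [vanishingIdeal_zeroLocus_eq_radical] at h1
    exact h1
  choose n hn using hrad
  set N := ∑ k, n k with hN
  have hNk : ∀ k, (X k : MvPolynomial (Fin 4) K) ^ (N + 3) ∈ I := by
    intro k
    have h1 : n k ≤ N + 3 := (Finset.single_le_sum (f := n) (fun i _ => Nat.zero_le _)
      (Finset.mem_univ k)).trans (by omega)
    obtain ⟨m, hm⟩ := Nat.exists_eq_add_of_le h1
    rw [hm, pow_add]
    exact I.mul_mem_right _ (hn k)
  have hrep : ∀ k, ∃ H : Fin 4 × Fin 4 → MvPolynomial (Fin 4) K,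
      ∑ j, H j * adjP S j = X k ^ (N + 3) := by
    intro k
    have h1 := hNk k
    rw [hI] at h1
    exact (Ideal.mem_span_range_iff_exists_fun).1 h1
  choose H hH using hrep
  refine ⟨N, fun p => homogeneousComponent N (H p.1 p.2), fun a =>
    homogeneousComponent_isHomogeneous _ _, ?_⟩
  intro k
  have h1 := congrArg (homogeneousComponent (N + 3)) (hH k)
  rw [map_sum] at h1
  have hcomp : ∀ j, homogeneousComponent (N + 3) (H k j * adjP S j) =
      homogeneousComponent N (H k j) * adjP S j := by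
    intro j
    conv_lhs => rw [← sum_homogeneousComponent (H k j), Finset.sum_mul, map_sum]
    have h1 : ∀ i ∈ Finset.range ((H k j).totalDegree + 1),
        homogeneousComponent (N + 3) (homogeneousComponent i (H k j) * adjP S j) =
          if i = N then homogeneousComponent N (H k j) * adjP S j else 0 := by
      intro i _
      have h2 : homogeneousComponent i (H k j) * adjP S j ∈
          homogeneousSubmodule (Fin 4) K (i + 3) :=
        (homogeneousComponent_isHomogeneous i (H k j)).mul (adjP_hom S j)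
      rw [homogeneousComponent_of_mem h2]
      by_cases h : i = N
      · simp [h]
      · rw [if_neg (by omega), if_neg h]
    rw [Finset.sum_congr rfl h1, Finset.sum_ite_eq']
    split_ifs with h
    · rfl
    · rw [Finset.mem_range, not_lt] at h
      rw [homogeneousComponent_eq_zero N (H k j) (by omega), zero_mul]
  simp only [hcomp] at h1
  rw [homogeneousComponent_of_mem (m := N + 3) (isHomogeneous_X_pow k (N + 3)), if_pos rfl] at h1
  exact h1

variable [AdmissibleAbsValues K]

/-- The height of the adjugate. -/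
theorem height_adj {S : Fin 4 → Fin 4 → Fin 4 → K} (hc : NC S) :
    ∃ C₀ : ℝ, ∀ u : Fin 4 → K,
      C₀ + 3 * logHeight u ≤ logHeight (fun j : Fin 4 × Fin 4 => (mt S u).adjugate j.1 j.2) := by
  obtain ⟨M, q, hq, h⟩ := exists_null hc
  obtain ⟨C₀, hC₀⟩ := logHeight_eval_ge' (M := M) (N := 3) hq
  refine ⟨C₀, fun u => ?_⟩
  have h1 := hC₀ (adjP S) (x := u) (fun k => by
    have := congrArg (eval u) (h k)
    rw [map_sum] at this
    simpa using this)
  have h2 : (fun j => eval u (adjP S j)) =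
      fun j : Fin 4 × Fin 4 => (mt S u).adjugate j.1 j.2 := by
    funext j
    exact eval_adjP S u j
  rw [h2] at h1
  exact_mod_cast h1

/-- The height inequality for three consecutive points. -/
theorem height_chain {T : Fin 4 → Fin 4 → Fin 4 → K} (h0 : NC T) (h1 : NC (rot T))
    (h2 : NC (rot (rot T))) :
    ∃ C₀ : ℝ, 0 ≤ C₀ ∧ ∀ u : ℕ → Fin 4 → K, Chain T u → ∀ i,
      3 * logHeight (u (i + 1)) ≤ logHeight (u i) + logHeight (u (i + 2)) + C₀ := by
  obtain ⟨C0, hC0⟩ := height_adj h0
  obtain ⟨C1, hC1⟩ := height_adj h1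
  obtain ⟨C2, hC2⟩ := height_adj h2
  have hall : ∀ j : ℕ, NC (rot^[j] T) ∧ ∀ u : Fin 4 → K,
      -(|C0| + |C1| + |C2|) + 3 * logHeight u ≤
        logHeight (fun p : Fin 4 × Fin 4 => (mt (rot^[j] T) u).adjugate p.1 p.2) := by
    intro j
    have a0 := abs_nonneg C0
    have a1 := abs_nonneg C1
    have a2 := abs_nonneg C2
    have b0 := neg_abs_le C0
    have b1 := neg_abs_le C1
    have b2 := neg_abs_le C2
    have e : rot^[j] T = rot^[j % 3] T := by
      conv_lhs => rw [← Nat.mod_add_div j 3]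
      exact rot_iterate_add T (j % 3) (j / 3)
    rw [e]
    have h3 : j % 3 < 3 := Nat.mod_lt _ (by norm_num)
    interval_cases j % 3
    · exact ⟨h0, fun u => by have := hC0 u; simp only [Function.iterate_zero, id]; linarith⟩
    · exact ⟨h1, fun u => by have := hC1 u; simp only [Function.iterate_one]; linarith⟩
    · exact ⟨h2, fun u => by
        have := hC2 u
        show _ ≤ logHeight (fun p : Fin 4 × Fin 4 => (mt (rot (rot T)) u).adjugate p.1 p.2)
        linarith⟩
  refine ⟨|C0| + |C1| + |C2|, by positivity, fun u hu i => ?_⟩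
  have h3 := (hall (i + 1)).2 (u (i + 1))
  obtain ⟨t, ht, ht'⟩ := adj_rank_one (N := mt (rot^[i + 1] T) (u (i + 1)))
    (v := u (i + 2)) (w := u i) ((hall (i + 1)).1.adj (hu.ne _)) (hu.ne _) (hu.ne _)
    (hu.rel (i + 1)) (by
      rw [Function.iterate_succ_apply']
      exact (rel_iff _ _ _).1 (hu.rel i))
  have h4 : (fun p : Fin 4 × Fin 4 => (mt (rot^[i + 1] T) (u (i + 1))).adjugate p.1 p.2) =
      t • fun p : Fin 4 × Fin 4 => u i p.1 * u (i + 2) p.2 := by
    funext p
    rw [ht']
    rfl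
  rw [h4, logHeight_smul_eq_logHeight _ ht, logHeight_fun_mul_eq (hu.ne _) (hu.ne _)] at h3
  linarith

end

end Pool.Agent.K1H47.CO
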