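import Pool.Agent.K1H47.CO.Good
import Pool.Agent.W279.Tri.LocComp

/-! # Existence of good places and recurrence (helper47) -/

set_option autoImplicit false
set_option linter.unusedSectionVars false

namespace Pool.Agent.K1H47.CO

open Matrix MvPolynomial

universe u v

section exist

variable {K : Type u} [Field K]

/-- finitely many elements are integral at almost all places -/
lemma exists_int [NumberField K] (s : Finset K) : ∃ N : ℕ, N ≠ 0 ∧
    ∀ (L : Type v) [NontriviallyNormedField L] [IsUltrametricDist L] (σ : K →+* L),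
      ‖(N : L)‖ = 1 → ∀ c ∈ s, ‖σ c‖ ≤ 1 := by
  have halg : Algebra.IsAlgebraic ℤ K :=
    (IsFractionRing.comap_isAlgebraic_iff (A := ℤ) (K := ℚ) (C := K)).2 inferInstance
  obtain ⟨y, hy, hint⟩ := Algebra.IsAlgebraic.exists_integral_multiples (R := ℤ) (A := K) s
  refine ⟨y.natAbs, by simpa using hy, fun L _ _ σ hN c hc => ?_⟩
  have h1 : IsIntegral ℤ (σ (y • c)) := (hint c hc).map (σ.toIntAlgHom)
  have h2 := norm_le_one_of_isIntegral h1
  rw [zsmul_eq_mul, map_mul, map_intCast, norm_mul] at h2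
  have h3 : ‖((y : ℤ) : L)‖ = 1 := by
    have h4 : ‖((y.natAbs : ℕ) : L)‖ = ‖((y : ℤ) : L)‖ := by
      rcases Int.natAbs_eq y with h | h
      · conv_rhs => rw [h]
        simp
      · conv_rhs => rw [h]
        simp
    rw [← h4, hN]
  rw [h3, one_mul] at h2
  exact h2

lemma norm_eval₂_le {L : Type*} [NontriviallyNormedField L] [IsUltrametricDist L] (σ : K →+* L)
    {p : MvPolynomial (Fin 4) K} (hp : ∀ m ∈ p.support, ‖σ (p.coeff m)‖ ≤ 1) {x : Fin 4 → L}
    (hx : ‖x‖ ≤ 1) : ‖eval₂ σ x p‖ ≤ 1 := by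
  rw [eval₂_eq']
  refine IsUltrametricDist.norm_sum_le_of_forall_le_of_nonneg zero_le_one fun m hm => ?_
  rw [norm_mul]
  refine mul_le_one₀ (hp m hm) (norm_nonneg _) (prod_le_one _ fun i _ => ?_)
  rw [norm_pow]
  exact pow_le_one₀ (norm_nonneg _) ((norm_le_pi_norm x i).trans hx)

/-- one slot -/
lemma exists_uni [NumberField K] {S : Fin 4 → Fin 4 → Fin 4 → K} (hS : NC S) : ∃ N : ℕ, N ≠ 0 ∧
    ∀ (L : Type v) [NontriviallyNormedField L] [IsUltrametricDist L] (σ : K →+* L),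
      ‖(N : L)‖ = 1 → Uni (tmap σ S) := by
  classical
  obtain ⟨M, q, hq, h⟩ := exists_null hS
  set s : Finset K := (Finset.univ.image fun p : Fin 4 × Fin 4 × Fin 4 => S p.1 p.2.1 p.2.2) ∪
    Finset.univ.biUnion fun a : Fin 4 × (Fin 4 × Fin 4) => (q a).support.image (q a).coeff with hs
  obtain ⟨N, hN, hN'⟩ := exists_int s
  refine ⟨N, hN, fun L _ _ σ h1 => ⟨fun a b c => ?_, fun x hx => ?_⟩⟩
  · refine hN' L σ h1 _ ?_
    rw [hs, Finset.mem_union]
    left
    exact Finset.mem_image.2 ⟨(a, b, c), Finset.mem_univ _, rfl⟩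
  · obtain ⟨k, hk⟩ : ∃ k, ‖x k‖ = 1 := by
      obtain ⟨i, -, hi⟩ := Finset.exists_mem_eq_sup' (s := (Finset.univ : Finset (Fin 4)))
        ⟨0, Finset.mem_univ _⟩ (fun i => ‖x i‖)
      refine ⟨i, le_antisymm (hx ▸ norm_le_pi_norm x i) ?_⟩
      rw [← hx, pi_norm_le_iff_of_nonneg (norm_nonneg _)]
      intro j
      have := Finset.le_sup' (fun i => ‖x i‖) (Finset.mem_univ j)
      rw [hi] at this
      exact this
    have h2 := congrArg (eval₂ σ x) (h k)
    rw [eval₂_sum, eval₂_pow, eval₂_X] at h2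
    by_contra hcon
    push Not at hcon
    have h3 : ‖∑ j, eval₂ σ x (q (k, j) * adjP S j)‖ < 1 := by
      have h4 : ∀ j, ‖eval₂ σ x (q (k, j) * adjP S j)‖ < 1 := by
        intro j
        rw [eval₂_mul, norm_mul, eval₂_adjP]
        have h5 : ‖eval₂ σ x (q (k, j))‖ ≤ 1 := by
          refine norm_eval₂_le σ (fun m hm => hN' L σ h1 _ ?_) hx.le
          rw [hs, Finset.mem_union]
          right
          exact Finset.mem_biUnion.2 ⟨(k, j), Finset.mem_univ _, Finset.mem_image.2 ⟨m, hm, rfl⟩⟩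
        have h6 := hcon j.1 j.2
        calc ‖eval₂ σ x (q (k, j))‖ * ‖(mt (tmap σ S) x).adjugate j.1 j.2‖ ≤
            1 * ‖(mt (tmap σ S) x).adjugate j.1 j.2‖ := by gcongr
          _ < 1 := by rw [one_mul]; exact h6
      obtain ⟨j₀, -, hj₀⟩ := IsUltrametricDist.exists_norm_finsetSum_le
        (Finset.univ : Finset (Fin 4 × Fin 4)) (fun j => eval₂ σ x (q (k, j) * adjP S j))
      exact lt_of_le_of_lt hj₀ (h4 j₀)
    rw [h2, norm_pow, hk, one_pow] at h3
    exact lt_irrefl _ h3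

/-- almost all places are good -/
theorem exists_good [NumberField K] {T : Fin 4 → Fin 4 → Fin 4 → K} (h0 : NC T)
    (h1 : NC (rot T)) (h2 : NC (rot (rot T))) : ∃ N : ℕ, N ≠ 0 ∧
    ∀ (L : Type v) [NontriviallyNormedField L] [IsUltrametricDist L] (σ : K →+* L),
      ‖(N : L)‖ = 1 → Good T σ := by
  obtain ⟨N0, hN0, g0⟩ := exists_uni.{u, v} h0
  obtain ⟨N1, hN1, g1⟩ := exists_uni.{u, v} h1
  obtain ⟨N2, hN2, g2⟩ := exists_uni.{u, v} h2
  refine ⟨N0 * N1 * N2, by positivity, fun L _ _ σ hN => ?_⟩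
  have b0 : ‖(N0 : L)‖ ≤ 1 := IsUltrametricDist.norm_natCast_le_one L _
  have b1 : ‖(N1 : L)‖ ≤ 1 := IsUltrametricDist.norm_natCast_le_one L _
  have b2 : ‖(N2 : L)‖ ≤ 1 := IsUltrametricDist.norm_natCast_le_one L _
  have p0 := norm_nonneg (N0 : L)
  have p1 := norm_nonneg (N1 : L)
  have p2 := norm_nonneg (N2 : L)
  rw [Nat.cast_mul, Nat.cast_mul, norm_mul, norm_mul] at hN
  have c2 : ‖(N2 : L)‖ = 1 := by
    refine le_antisymm b2 ?_
    nlinarith [mul_le_one₀ b0 p1 b1]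
  rw [c2, mul_one] at hN
  have c1 : ‖(N1 : L)‖ = 1 := by
    refine le_antisymm b1 ?_
    nlinarith
  rw [c1, mul_one] at hN
  intro j
  have e : rot^[j] (tmap σ T) = rot^[j % 3] (tmap σ T) := by
    conv_lhs => rw [← Nat.mod_add_div j 3]
    exact rot_iterate_add _ (j % 3) (j / 3)
  rw [e, rot_iterate_tmap]
  have h3 : j % 3 < 3 := Nat.mod_lt _ (by norm_num)
  interval_cases j % 3
  · exact g0 L σ hN
  · exact g1 L σ c1
  · exact g2 L σ c2

end exist

section recurrence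

variable {K : Type u} [Field K]

lemma close_of_norm_one {L : Type*} [NontriviallyNormedField L] [IsUltrametricDist L]
    {x y : Fin 4 → L} {s t : L} (hs : s ≠ 0) (ht : t ≠ 0) (hx : ‖s • x‖ = 1) {ε : ℝ}
    (h : ‖s • x - t • y‖ ≤ ε) : Close ε x y := by
  refine ⟨s⁻¹ * t, mul_ne_zero (inv_ne_zero hs) ht, ?_⟩
  have e1 : x - (s⁻¹ * t) • y = s⁻¹ • (s • x - t • y) := by
    rw [smul_sub, smul_smul, smul_smul, inv_mul_cancel₀ hs, one_smul]
  have e2 : ‖x‖ = ‖s‖⁻¹ := by
    have h1 : x = s⁻¹ • (s • x) := by rw [smul_smul, inv_mul_cancel₀ hs, one_smul]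
    conv_lhs => rw [h1]
    rw [norm_smul, norm_inv, hx, mul_one]
  rw [e1, norm_smul, norm_inv, e2, mul_comm ε]
  gcongr

/-- **Recurrence.** -/
theorem recurrence {T : Fin 4 → Fin 4 → Fin 4 → K} {ι : Type*} [Finite ι] (L : ι → Type v)
    [∀ i, NontriviallyNormedField (L i)] [∀ i, IsUltrametricDist (L i)] [∀ i, ProperSpace (L i)]
    (σ : ∀ i, K →+* L i) (hT : ∀ i, Good T (σ i)) {u : ℕ → Fin 4 → K} (hu : Chain T u)
    {ε : ℝ} (hε0 : 0 < ε) (hε : ε < 1) :
    ∃ m : ℕ, 1 ≤ m ∧ ∀ l : ℕ, ∀ i,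
      Close ε (fun a => σ i (u 0 a)) (fun a => σ i (u (3 * (m * l)) a)) := by
  classical
  have := Fintype.ofFinite ι
  choose t ht ht1 using fun (n : ℕ) (i : ι) =>
    exists_norm_one (L := L i) (map_ne' (σ := σ i) (hu.ne (3 * n)))
  set w : ℕ → ∀ i, Fin 4 → L i := fun n i => t n i • fun a => σ i (u (3 * n) a) with hw
  have hcomp : IsCompact (Set.univ.pi fun i : ι => Metric.closedBall (0 : Fin 4 → L i) 1) :=
    isCompact_univ_pi fun i => isCompact_closedBall _ _
  obtain ⟨a, -, φ, hφ, hlim⟩ := hcomp.tendsto_subseq (x := w) (fun n => by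
    intro i _
    rw [mem_closedBall_zero_iff, hw]
    exact (ht1 n i).le)
  have hcau := hlim.cauchySeq
  obtain ⟨n0, hn0⟩ := Metric.cauchySeq_iff'.1 hcau ε hε0
  have h1 := hn0 (n0 + 1) (by omega)
  have h2 : φ n0 < φ (n0 + 1) := hφ (by omega)
  obtain ⟨m, hm⟩ := Nat.exists_eq_add_of_lt h2
  have hclose : ∀ i, Close ε (fun a => σ i (u (3 * φ n0) a))
      (fun a => σ i (u (3 * φ (n0 + 1)) a)) := by
    intro i
    refine close_of_norm_one (ht (φ n0) i) (ht (φ (n0 + 1)) i) (ht1 _ i) ?_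
    have h3 : dist (w (φ (n0 + 1)) i) (w (φ n0) i) ≤ ε :=
      (dist_le_pi_dist _ _ i).trans h1.le
    rw [dist_comm, dist_eq_norm] at h3
    exact h3
  have hshift := hu.shift (m + 1)
  have h0 : ∀ i, Close ε (fun a => σ i (u 0 a)) (fun a => σ i (u (3 * (m + 1)) a)) := by
    intro i
    have h3 := (Chain.close_iff (hT i) hu hshift hε0.le hε (3 * φ n0)).1 (by
      have := hclose i
      rw [hm] at this
      rw [show 3 * φ n0 + 3 * (m + 1) = 3 * (φ n0 + m + 1) by ring]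
      exact this)
    simpa using h3
  refine ⟨m + 1, by omega, fun l i => ?_⟩
  induction l with
  | zero =>
    rw [mul_zero, mul_zero]
    exact Close.refl hε0.le _
  | succ l ih =>
    refine Close.trans hε0.le hε (map_ne' (hu.ne _)) ih ?_
    have h4 := (Chain.close_iff (hT i) hu hshift hε0.le hε (3 * ((m + 1) * l))).2 (by
      have := h0 i
      simpa using this)
    rw [show 3 * ((m + 1) * l) + 3 * (m + 1) = 3 * ((m + 1) * (l + 1)) by ring] at h4
    exact h4

end recurrence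

end Pool.Agent.K1H47.CO
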