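import Mathlib

/-!
# Interface for automorphisms of projective surfaces (helper47, MP_ed3816_nt)
-/

set_option autoImplicit false

namespace Pool.Agent.K1H47.CO

open MvPolynomial

universe u

/-- **S_REL.**  `P` a homogeneous prime ideal of `K[x_0..x_n]` with `dim K[x]/P ≤ 3` (the cone over a
projective surface), `G ∉ P` a form.  There is `d` such that for all forms `A`, `B` of the same degree `δ`
(arbitrary) and all coordinates `i`, `j` there is a nontrivial relation
`∑_{l ≤ d, m ≤ M} c l m A^l B^(d-l) X_i^m X_j^(M-m) ∈ P + (G)`, with `M` depending on everything, but `d`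
depending on `P` and `G` only. -/
def S_REL : Prop := ∀ (K : Type u) [Field K] (n : ℕ) (P : Ideal (MvPolynomial (Fin (n + 1)) K)),
  P.IsPrime → (∀ f ∈ P, ∀ j : ℕ, homogeneousComponent j f ∈ P) →
  ringKrullDim (MvPolynomial (Fin (n + 1)) K ⧸ P) ≤ 3 →
  ∀ (G : MvPolynomial (Fin (n + 1)) K) (g : ℕ), G.IsHomogeneous g → G ∉ P →
  ∃ d : ℕ, ∀ (δ : ℕ) (A B : MvPolynomial (Fin (n + 1)) K), A.IsHomogeneous δ → B.IsHomogeneous δ →
    ∀ i j : Fin (n + 1), ∃ (M : ℕ) (c : Fin (d + 1) → Fin (M + 1) → K), c ≠ 0 ∧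
      ∑ l : Fin (d + 1), ∑ m : Fin (M + 1),
        C (c l m) * (A ^ (l : ℕ) * B ^ (d - l) * (X i ^ (m : ℕ) * X j ^ (M - m))) ∈
          P ⊔ Ideal.span {G}

end Pool.Agent.K1H47.CO
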